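import Pool.Agent.H57.HV.Hv
import Pool.Agent.H35.M.NoAtC
import Pool.Agent.H22.M.TopM

/-!
# The volume has no jump, in dimension four

`hv_two`: `VPlS` at two windows around a jump of the volume. `hv_pk`: the hypothesis of
`no_atom_pk`. `cont_top`: the volume is continuous at a window, if the labels at another time are few
bits given the exact point.
-/

set_option autoImplicit false

namespace Pool.HV57

open Finset Real
open Pool.Agent.H49.Ent Pool.Agent.H32.Dense Pool.STK Pool.KA Pool.KSAT Pool.K2S Pool.PB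
open Pool.GEN Pool.S6C Pool.GRW Pool.PKG Pool.R1
open Pool.CHT (chsys bet tau Up1 RelvC TmH Csl)
open Pool.ONE (lst)
open Pool.PM93 (AflOf)
open Pool.PM (PkA VNum LabV ShvS FlsS VPlS)
open Pool.PLN (H2S ConS HesS)
open Pool.STR (FinW)

/-- The activity at the times `0`, `q`. -/
theorem act_q' {N : ℚ → ℚ → ℝ} {al : ℝ} {g₀ : ℝ → ℝ} (h : ActM N al g₀) {ε : ℝ} (hε : 0 < ε)
    (hε1 : ε < 1) {g : ℚ} (hg : 0 < g) (hgg : (g : ℝ) ≤ g₀ ε) : (al - ε) * g ≤ N 0 g := by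
  by_contra hcon
  push Not at hcon
  have h1 := h ε hε g hg hgg 1
  rw [Finset.filter_true_of_mem (fun i hi => ?_)] at h1
  · rw [Finset.card_range, Nat.cast_one, mul_one] at h1
    linarith
  · have hi0 : i = 0 := by
      rw [Finset.mem_range] at hi
      omega
    subst hi0
    simpa using hcon

section parts

variable {S : PCl 4} {c : ℕ → Fin 4} {al : ℝ} {g₀ : ℝ → ℝ} {Nc : ℚ → ℚ → ℝ} {θ : ℝ}
  {PP : List (Fin 4) × Fin 4 → ℝ → ℝ → ℝ} {w₀ w₁ g δ vs V₀ V₁ s₀ : ℝ} {p : ℝ → ℝ}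

/-- **`VPlS` at two windows.** -/
theorem hv_two (hC : CV S c al g₀ Nc θ PP w₀ w₁ vs V₀ p)
    (hN : NV w₀ w₁ θ g δ vs V₀ V₁ (p w₀) (fun l => bet PP c l w₀ w₀) (fun l => bet PP c l w₁ w₁))
    (hal : 0 < al) (hg₀ : ∀ ε : ℝ, 0 < ε → 0 < g₀ ε) {e : ℝ} (he : Csl 3 3 * vs < e)
    (heθ : e + 2 * vs < θ * w₀) (hs0 : e + vs ≤ s₀) (hsg : 8 * s₀ ≤ g) (hse : 0 ≤ e)
    (hsθ : s₀ ≤ θ) {h y : ℝ} (hh : 0 < h) (hhg : 4 * h ≤ g) (hhy : 8 * h ≤ y) (hδy : 8 * δ ≤ y)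
    (hcon : ∀ (K : ℕ) (c₀ : ℝ), 0 < c₀ → ConS S c (vnum w₀ w₁ θ s₀ (fun l => bet PP c l w₀ w₀)
      (fun l => bet PP c l w₁ w₁) (p w₀)).toNums K h c₀)
    {eH : ℝ} (hH2 : H2S S w₀ w₁ eH) (heH : 0 ≤ eH) {q : ℚ} (hq : 0 < q) (hqy : (q : ℝ) ≤ y)
    (hNq : 2 * eH < Nc 0 q * Real.log 2) :
    ∃ (β : ℕ → ℝ) (mv : ℝ), β 0 = w₀ ∧ β 1 = bet PP c 1 w₀ w₀ ∧ g - 2 * δ - 2 * θ ≤ mv ∧
      VPlS S c β w₀ w₁ y mv (1 / 4) 11 := by
  obtain ⟨K, hK, hl⟩ := hv_lab hC hN hal hg₀ he heθ hs0 hsg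
  obtain ⟨hp, hfall⟩ := hv_fall hC hN hl
  have hfl := vnum_fall (w₀ := w₀) (w₁ := w₁) (θ := θ) (s₀ := s₀) (fun l => bet PP c l w₀ w₀)
    (fun l => bet PP c l w₁ w₁) (p w₀)
  have hm1 : min (bet PP c 2 w₁ w₁) (1 - 2 * θ) ≤ 1 - 2 * θ := min_le_right _ _
  have n0 := hN.b00
  have n2 := hN.w00
  have n3 := hN.w01
  have n4 := hN.d0
  have n5 := hN.pw
  have n6 := hN.pb
  have n7 := hN.th
  have n8 := hN.vs0
  have n9 := hN.dl
  have n10 := hN.t1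
  have n11 := hN.wb0
  have n12 := hN.thg
  have hy0 : 0 < y := by linarith
  have hw0 : w₀ < 1 := by linarith
  have hvs : vs ≤ s₀ := by linarith
  refine ⟨(vnum w₀ w₁ θ s₀ (fun l => bet PP c l w₀ w₀) (fun l => bet PP c l w₁ w₁) (p w₀)).β,
    (vnum w₀ w₁ θ s₀ (fun l => bet PP c l w₀ w₀) (fun l => bet PP c l w₁ w₁) (p w₀)).fall,
    ?_, ?_, ?_, ?_⟩
  · show (if (0 : ℕ) = 2 then p w₀ else bet PP c 0 w₀ w₀) = w₀
    rw [if_neg (by norm_num)]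
    exact n0
  · show (if (1 : ℕ) = 2 then p w₀ else bet PP c 1 w₀ w₀) = bet PP c 1 w₀ w₀
    rw [if_neg (by norm_num)]
  · rw [hfl]
    exact hfall
  refine Pool.PM.vplS_of (N := vnum w₀ w₁ θ s₀ (fun l => bet PP c l w₀ w₀)
    (fun l => bet PP c l w₁ w₁) (p w₀)) (K := K) (η := 1 / 4) (y := y) (Cv := 4) (Cf := 11)
    (by norm_num) hy0.le hC.pos hl (hC.wn _) n2.le hw0 (fun b hb h1 h2 => ?_)
    (fun b hb h1 h2 => ?_) (fun i hi => ?_) 11 (by norm_num)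
  · refine hv_shv hC hN hvs hsθ hh (by linarith) hy0 (by linarith) hK (by linarith)
      (fun c₁ hc₁ => hcon K c₁ hc₁) (fun c₁ hc₁ => ?_) (by norm_num)
    exact hv_hes hC hN hh hhg (by linarith) K (fun c₂ hc₂ => hcon K c₂ hc₂) hc₁
  · exact hv_fls hC hN hvs hsθ hH2 heH hq (by linarith) hb hNq h2 (by norm_num)
  · rw [hfl]
    show (if i = 2 then p w₀ else bet PP c i w₀ w₀) + _ ≤ 1
    rcases (show i = 0 ∨ i = 1 ∨ i = 2 by omega) with rfl | rfl | rfl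
    · rw [if_neg (by norm_num)]
      linarith
    · rw [if_neg (by norm_num)]
      linarith
    · rw [if_pos rfl]
      linarith

end parts

section pk

variable {hn : 2 ≤ 4} {S : PCl 4} {P : ℝ → ℝ → ℝ} {r : ℝ → ℝ}
  {P' : ℕ → List (Fin 4) × Fin 4 → ℝ → ℝ → ℝ} {Λ : Finset (Fin 4) → Fin 4 → ℝ → ℝ → ℝ}
  {pa : Equiv.Perm (Fin (4 - 1)) → Fin 4 → ℝ → ℝ}

/-- **The falling level at a jump of the volume.** -/
theorem hv_pk (H : PkA hn S P r P' Λ pa) (hF2 : FZX 2) (hF : FZX 3) {wc : ℝ} (hc0 : 0 < wc)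
    (hc1 : wc < 1)
    (hH2 : ∃ C η : ℝ, 0 ≤ C ∧ 0 < η ∧ ∀ w₁ ∈ Wr P P' Λ, wc < w₁ → w₁ < wc + η → ∀ w₀ : ℝ,
      0 < w₀ → w₀ < wc → H2S S w₀ w₁ (C * (w₁ - w₀))) {g : ℝ} (hg : 0 < g)
    (hjmp : ∀ a b : ℝ, a < wc → wc < b → g ≤ vx P P' Λ b - vx P P' Λ a) :
    ∃ C : ℝ, 1 ≤ C ∧ ∀ ε : ℝ, 0 < ε → ∃ d : ℝ, 0 < d ∧
      ∀ w₀ ∈ Wr P P' Λ ∩ {w | ∀ σ i, ContinuousAt (pa σ i) w},
      ∀ w₁ ∈ Wr P P' Λ ∩ {w | ∀ σ i, ContinuousAt (pa σ i) w},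
        wc - d < w₀ → w₀ < wc → wc < w₁ → w₁ < wc + d →
        ∃ (σ : Equiv.Perm (Fin (4 - 1))) (β : ℕ → ℝ) (y mv : ℝ), σ ∈ Og 4 ∧
          w₀ ≤ β 0 ∧ Λ {cc hn σ 0} (cc hn σ 1) w₀ w₀ ≤ β 1 ∧ y ≤ ε ∧ g - ε ≤ mv ∧
          VPlS S (cc hn σ) β w₀ w₁ y mv (1 / 4) C := by
  have hC' := H.cl
  obtain ⟨al, g₀, s, d, e, K₀, Nc, hal, hg₀, hC⟩ := hC'
  obtain ⟨εa, c₁, C₁, hεa, hc₁, hC₁, hcon⟩ := hv_con al hal
  refine ⟨11, by norm_num, fun ε hε => ?_⟩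
  -- the constants
  obtain ⟨y, hy⟩ : ∃ y, y = min ε g := ⟨_, rfl⟩
  have hy0 : 0 < y := by rw [hy]; exact lt_min hε hg
  have hyε : y ≤ ε := by rw [hy]; exact min_le_left _ _
  have hyg : y ≤ g := by rw [hy]; exact min_le_right _ _
  obtain ⟨j, hj⟩ := tht_ex (c := y / 8) (by linarith)
  have hθ0 := tht_pos j
  obtain ⟨ω, hω⟩ : ∃ ω, ω = wc / 2 := ⟨_, rfl⟩
  have hω0 : 0 < ω := by rw [hω]; linarith
  have hθω : 0 < tht j * ω := mul_pos hθ0 hω0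
  have hθω1 : tht j * ω ≤ tht j := mul_le_of_le_one_right hθ0.le (by linarith)
  obtain ⟨h, hh⟩ : ∃ h, h = min (g₀ εa) (min (tht j * ω / 2) (y / (8 * C₁))) := ⟨_, rfl⟩
  have hh0 : 0 < h := by
    rw [hh]
    exact lt_min (hg₀ _ hεa) (lt_min (by linarith) (by positivity))
  have hh1 : h ≤ g₀ εa := by rw [hh]; exact min_le_left _ _
  have hh2 : h ≤ tht j * ω / 2 := by rw [hh]; exact (min_le_right _ _).trans (min_le_left _ _)
  have hh3 : 8 * (C₁ * h) ≤ y := by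
    have h1 : h ≤ y / (8 * C₁) := by rw [hh]; exact (min_le_right _ _).trans (min_le_right _ _)
    rw [le_div_iff₀ (by positivity)] at h1
    linarith
  have hh4 : 8 * h ≤ y := by
    have : 1 * h ≤ C₁ * h := mul_le_mul_of_nonneg_right hC₁ hh0.le
    linarith
  obtain ⟨s₀, hs₀⟩ : ∃ s₀, s₀ = tht j * ω / 4 := ⟨_, rfl⟩
  have hs0 : 0 < s₀ := by rw [hs₀]; linarith
  obtain ⟨vs, hvs⟩ : ∃ vs, vs = s₀ / (8 * ((Csl 3 3 : ℝ) + 1)) := ⟨_, rfl⟩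
  have hcs : (0 : ℝ) ≤ (Csl 3 3 : ℝ) := Nat.cast_nonneg _
  have hvs0 : 0 < vs := by rw [hvs]; positivity
  have hvs1 : ((Csl 3 3 : ℝ) + 1) * vs = s₀ / 8 := by
    rw [hvs]
    field_simp
  have hvs2 : 0 ≤ (Csl 3 3 : ℝ) * vs := mul_nonneg hcs hvs0.le
  have hvs3 : (Csl 3 3 : ℝ) * vs + vs = s₀ / 8 := by rw [← hvs1]; ring
  -- the active coordinate
  obtain ⟨q, hq0, hq1⟩ := exists_rat_btwn (show (0 : ℝ) < min (g₀ (min (al / 2) (1 / 2))) y from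
    lt_min (hg₀ _ (lt_min (by linarith) (by norm_num))) hy0)
  have hq : 0 < q := by exact_mod_cast hq0
  have hεq : 0 < min (al / 2) (1 / 2) := lt_min (by linarith) (by norm_num)
  have hNq : (al - min (al / 2) (1 / 2)) * q ≤ Nc 0 q :=
    act_q' hC.actm hεq ((min_le_right _ _).trans_lt (by norm_num)) hq (hq1.le.trans (min_le_left _ _))
  have hqy : (q : ℝ) ≤ y := hq1.le.trans (min_le_right _ _)
  have hl2 : 0 < Real.log 2 := Real.log_pos one_lt_two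
  have hN0 : 0 < Nc 0 q * Real.log 2 := by
    refine mul_pos (lt_of_lt_of_le (mul_pos ?_ hq0) hNq) hl2
    have := min_le_left (al / 2) (1 / 2 : ℝ)
    linarith
  obtain ⟨eH, heH⟩ : ∃ eH, eH = min (c₁ * h) (Nc 0 q * Real.log 2 / 4) := ⟨_, rfl⟩
  have heH0 : 0 < eH := by rw [heH]; exact lt_min (mul_pos hc₁ hh0) (by linarith)
  have heH1 : eH ≤ c₁ * h := by rw [heH]; exact min_le_left _ _
  have heH2 : 2 * eH < Nc 0 q * Real.log 2 := by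
    have : eH ≤ Nc 0 q * Real.log 2 / 4 := by rw [heH]; exact min_le_right _ _
    linarith
  obtain ⟨δ, hδ⟩ : ∃ δ, δ = min (vs / 2) (min (c₁ * h / 2) (y / 8)) := ⟨_, rfl⟩
  have hδ0 : 0 < δ := by
    rw [hδ]
    exact lt_min (by linarith) (lt_min (by positivity) (by linarith))
  have hδ1 : δ ≤ vs / 2 := by rw [hδ]; exact min_le_left _ _
  have hδ2 : δ ≤ c₁ * h / 2 := by rw [hδ]; exact (min_le_right _ _).trans (min_le_left _ _)
  have hδ3 : δ ≤ y / 8 := by rw [hδ]; exact (min_le_right _ _).trans (min_le_right _ _)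
  have hch : 0 < c₁ * h := mul_pos hc₁ hh0
  -- the windows
  have hf : ∀ k : Fin 4, k ≠ 0 → FinW (fun w => Λ {0} k w w) (Wr P P' Λ) wc := fun k hk =>
    Pool.NJ69.fin_lam H.toPk (by norm_num) hF2 rfl hk hc1 hH2
  have hfd : ∀ k : Fin 4, ∃ d : ℝ, 0 < d ∧ (k ≠ 0 → ∀ w₀ ∈ Wr P P' Λ, ∀ w₁ ∈ Wr P P' Λ,
      0 < w₀ → wc - d < w₀ → w₀ < wc → wc < w₁ → w₁ < wc + d → w₁ ≤ 1 →
      Λ {0} k w₁ w₁ - Λ {0} k w₀ w₀ ≤ δ) := by
    intro k
    by_cases hk : k = 0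
    · exact ⟨1, one_pos, fun h => absurd hk h⟩
    obtain ⟨M, η, hη, h1⟩ := hf k hk
    have hM : (0 : ℝ) < 2 * (|M| + 1) := by positivity
    refine ⟨min η (δ / (2 * (|M| + 1))), lt_min hη (div_pos hδ0 hM), ?_⟩
    intro _ w₀ b0 w₁ b1 a0 a1 a2 a3 a4 a5
    have i1 := min_le_left η (δ / (2 * (|M| + 1)))
    have i2 := min_le_right η (δ / (2 * (|M| + 1)))
    have h2 := h1 w₀ b0 w₁ b1 a0 (by linarith) a2 a3 (by linarith) a5
    simp only at h2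
    have h3 : w₁ - w₀ ≤ 2 * (δ / (2 * (|M| + 1))) := by linarith
    have h4 : M * (w₁ - w₀) ≤ |M| * (w₁ - w₀) :=
      mul_le_mul_of_nonneg_right (le_abs_self _) (by linarith)
    have h5 : |M| * (w₁ - w₀) ≤ (|M| + 1) * (2 * (δ / (2 * (|M| + 1)))) :=
      mul_le_mul (by linarith) h3 (by linarith) (by positivity)
    have h6 : (|M| + 1) * (2 * (δ / (2 * (|M| + 1)))) = δ := by
      field_simp
    linarith
  obtain ⟨d1, hd1, hf1⟩ := hfd 1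
  obtain ⟨d2, hd2, hf2⟩ := hfd 2
  obtain ⟨d3, hd3, hHs⟩ := Pool.NAT35.h2_small hc0 hH2 heH0
  obtain ⟨dd, hdd⟩ : ∃ dd, dd = min (min d1 d2) (min d3 (min (wc / 2) (δ / 2))) := ⟨_, rfl⟩
  have k1 : dd ≤ d1 := by rw [hdd]; exact (min_le_left _ _).trans (min_le_left _ _)
  have k2 : dd ≤ d2 := by rw [hdd]; exact (min_le_left _ _).trans (min_le_right _ _)
  have k3 : dd ≤ d3 := by rw [hdd]; exact (min_le_right _ _).trans (min_le_left _ _)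
  have k4 : dd ≤ wc / 2 := by
    rw [hdd]; exact (min_le_right _ _).trans ((min_le_right _ _).trans (min_le_left _ _))
  have k5 : dd ≤ δ / 2 := by
    rw [hdd]; exact (min_le_right _ _).trans ((min_le_right _ _).trans (min_le_right _ _))
  refine ⟨dd, by
    rw [hdd]
    exact lt_min (lt_min hd1 hd2) (lt_min hd3 (lt_min (by linarith) (by linarith))), ?_⟩
  rintro w₀ ⟨b0, hp0⟩ w₁ ⟨b1, -⟩ a1 a2 a3 a4
  have w00 : 0 < w₀ := by linarith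
  have w1l := b1.1.lt
  have hww : ω ≤ w₀ := by rw [hω]; linarith
  have hθw : tht j * ω ≤ tht j * w₀ := mul_le_mul_of_nonneg_left hww hθ0.le
  have hvol : vol Λ w₀ + g ≤ vol Λ w₁ := by
    have h1 := hjmp w₀ w₁ a2 a3
    rw [vx_eq H.toPk hF b0.1, vx_eq H.toPk hF b1.1] at h1
    linarith
  obtain ⟨hCV, hNV, hb1⟩ := cv_nv H hF2 hF hal hg₀ hC (g := g) (δ := δ) (vs := vs) b0.1 b1.1 hp0
    (by linarith) (by linarith) (fun k hk hk' => by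
      have hk3 : k = 1 ∨ k = 2 := by
        have hl : lst hn = 3 := rfl
        rw [hl] at hk'
        revert hk hk'
        revert k
        decide
      rcases hk3 with rfl | rfl
      · exact hf1 (by decide) w₀ b0 w₁ b1 w00 (by linarith) a2 a3 (by linarith) w1l.le
      · exact hf2 (by decide) w₀ b0 w₁ b1 w00 (by linarith) a2 a3 (by linarith) w1l.le) hvol
    (j := j) (by linarith) (by linarith) (by linarith) (by linarith) (by linarith)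
  have hH := hHs w₀ w₁ b1 (by linarith) a2 a3 (by linarith)
  obtain ⟨β, mv, q1, q2, q3, q4⟩ := hv_two (s₀ := s₀) (e := s₀ / 2) (h := h) (y := y) hCV hNV hal
    hg₀ (by linarith) (by linarith) (by linarith) (by linarith) (by linarith) (by linarith) hh0
    (by linarith) hh4 (by linarith)
    (fun K c₀ hc₀ => hcon hCV hNV hg₀ hH heH0.le hh0 hh1 (by linarith) (by linarith) (by linarith)
      heH1 (by linarith) hs0.le (by linarith) (by linarith) K c₀ hc₀)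
    hH heH0.le hq hqy heH2
  have hσ0 := cc0 hn b1.1.ow.1
  refine ⟨ow Λ w₁, β, y, mv, b1.1.ow.1, q1.ge, ?_, hyε, by linarith, q4⟩
  rw [q2, hb1, hσ0]

/-- **The volume is continuous** at a window, if the labels at another time are few bits given the
exact point. -/
theorem cont_top (H : PkA hn S P r P' Λ pa) (hF2 : FZX 2) (hF : FZX 3) {wc : ℝ} (hc0 : 0 < wc)
    (hc1 : wc < 1)
    (hH2 : ∃ C η : ℝ, 0 ≤ C ∧ 0 < η ∧ ∀ w₁ ∈ Wr P P' Λ, wc < w₁ → w₁ < wc + η → ∀ w₀ : ℝ,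
      0 < w₀ → w₀ < wc → H2S S w₀ w₁ (C * (w₁ - w₀))) :
    ContinuousAt (vx P P' Λ) wc := by
  refine Pool.NAT35.no_atom_pk H.toPk (by norm_num) hF2
    (G := {w | ∀ σ i, ContinuousAt (pa σ i) w}) ?_ hc0 hc1 hH2
    fun g hg hj => hv_pk H hF2 hF hc0 hc1 hH2 hg hj
  filter_upwards [Pool.PM.wp_ae H] with w h1 h2 h3
  exact (h1 h2 h3).2

end pk

end Pool.HV57
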