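import Pool.Agent.H45.EXA.Exv

/-!
# Thresholds of chains in an order which is not greedy

`chn_abs_e`: if the coordinates before the last one are full below the cells of side `2 ^ (-u J)`,
and the last one is full to the precision `t` given these, then there is no visible chain with a
precision better than `t + sl` for the last coordinate; `sl` is the defect of a label of the last
coordinate against the radius `u`. `bet_le_gen`: the thresholds of the chains from the absence of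
visible chains.
-/

set_option autoImplicit false

namespace Pool.HV57

open Finset Real MvPolynomial
open Pool.Agent.H49.Ent Pool.Agent.H32.Dense Pool.STK Pool.BFL Pool.KA Pool.KSAT Pool.K2S Pool.PB
open Pool.GEN Pool.S6C Pool.CHT Pool.GRW
open Pool.LBT (LSys Slo Tri ThrOf)
open Pool.GRD (LbP clo1 gr_cls)
open Pool.FLF (Fam.sub)
open Pool.UNJ (ceI)

variable {m J : ℕ}

/-- **No visible chain is better than the fullness of its last coordinate.** -/
theorem chn_abs_e {S : PCl m} {C₀ : ℝ} (hC₀ : 0 ≤ C₀) (htm : TmC S C₀) {n : ℕ} {c : ℕ → Fin m}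
    (hc : Set.InjOn c (Set.Iio (n + 1))) {w u sl t : ℝ} (hw0 : 0 < w) (hw1 : w < 1) (hwu : w ≤ u)
    (hu1 : u < 1) (hsl : 0 ≤ sl) (hut : u ≤ t + sl)
    (hfull : ∀ ρ : ℝ, 0 < ρ → Bas S (fun J F A => ∀ (V : Type) (z : PtT F → V) (z' : LnT F → V),
      (∀ ω, A ω → z (ptr F J ω) = z' (slam F ⌊w * J⌋₊ ω)) →
      ((range n).image c).card * (((J - ⌊u * J⌋₊ : ℕ) : ℝ) * Real.log 2) - ρ * J ≤
        CH (Pool.Agent.H49.Ent.cond F.p A True)
          (fun ω => ceI ((range n).image c) (fun _ => J) (F.x ω))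
          (fun ω => (ceI ((range n).image c) (fun _ => ⌊u * J⌋₊) (F.x ω),
            z' (slam F ⌊w * J⌋₊ ω), F.W ω))))
    (href : ∀ η : ℝ, 0 < η → ∃ K, Bas S (fun J F A => Lb F ((range n).image c) (c n) K
      ⌊η * J⌋₊ J ⌊w * J⌋₊ ⌊u * J⌋₊ ⌊(u - sl - η) * J⌋₊ A))
    (ht : ∀ ρ : ℝ, 0 < ρ → Bas S (fun J F A => ∀ (V : Type) (z : PtT F → V) (z' : LnT F → V),
      (∀ ω, A ω → z (ptr F J ω) = z' (slam F ⌊w * J⌋₊ ω)) →
      ((1 - t) - ρ) * Real.log 2 * J ≤ CH (Pool.Agent.H49.Ent.cond F.p A True)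
        (fun ω => F.X J ω (c n)) (fun ω => ((fun l : Fin n => F.X J ω (c l)),
          z' (slam F ⌊w * J⌋₊ ω), F.W ω))))
    (K : ℕ) {h : ℝ} (hh : 0 < h) (hh1 : t + sl + h ≤ 1) :
    Bas S (fun J F A => ∀ (a w₀ e : ℕ) (g : ℕ → ℕ), w₀ ≤ a → a ≤ ⌊w * J⌋₊ →
      (∀ l ≤ n, (e : ℝ) + g l + (((⌊w * J⌋₊ - a : ℕ) : ℝ)) + h * J ≤ J) →
      (t + sl + h) * J ≤ g n + (((⌊w * J⌋₊ - a : ℕ) : ℝ)) →
      ¬ ChN F c (n + 1) (fun _ => K) a w₀ e g A) := by
  classical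
  have hl2 : 0 < Real.log 2 := Real.log_pos one_lt_two
  have hl2' : 1 / 2 ≤ Real.log 2 := by
    have := Real.log_two_gt_d9
    linarith
  have hl21 : Real.log 2 ≤ 1 := by
    have := Real.log_two_lt_d9
    linarith
  have hposA : ∀ (τ : ℝ) (J : ℕ) (F : Fam m J) (A : F.Ω → Prop), S.St τ J F A → 0 < Pe F.p A :=
    fun τ J F A hA => (htm (max τ 1) J F A (lt_of_lt_of_le one_pos (le_max_right _ _))
      (S.mono (le_max_left _ _) hA)).1
  obtain ⟨η, hη⟩ : ∃ η, η = h / 32 := ⟨_, rfl⟩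
  have hη0 : 0 < η := by rw [hη]; linarith
  have hηh : 32 * η = h := by rw [hη]; ring
  obtain ⟨K₂, hK₂⟩ := href η hη0
  obtain ⟨C₁, c₁, hC₁, hc₁, hlbp⟩ := lbp_of_chn m (n + 1) K
  obtain ⟨K', hK'⟩ : ∃ K', K' = max c₁ K₂ := ⟨_, rfl⟩
  have hgr := gr_cls hC₀ hposA (Pool.GEN.N34.tm_sub34 hC₀ htm) ((range n).image c) (c n) hwu
    (hw0.le.trans hwu) hu1 hfull K' hη0
  have ht4 := bas_part (ht (η / 2) (by linarith)) (c := 4) (by norm_num)
  have hpart := bas_part (hgr.and (ht4.and hK₂)) (c := (c₁ : ℝ)) (by exact_mod_cast hc₁)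
  -- the time
  obtain ⟨ψ, hψ⟩ : ∃ ψ : ℝ, ψ = min ((1 - w) * Real.log 2 / (2 * C₁))
      (η * Real.log 2 / (2 * C₁ * ((n : ℝ) + 1))) := ⟨_, rfl⟩
  have hC₁0 : 0 < C₁ := by linarith
  have hw1' : 0 < 1 - w := by linarith
  have hψ0 : 0 < ψ := by rw [hψ]; exact lt_min (by positivity) (by positivity)
  have hψ1 : C₁ * ψ ≤ (1 - w) * Real.log 2 / 2 := by
    have h1 : ψ ≤ (1 - w) * Real.log 2 / (2 * C₁) := by rw [hψ]; exact min_le_left _ _
    have h2 : C₁ * ((1 - w) * Real.log 2 / (2 * C₁)) = (1 - w) * Real.log 2 / 2 := by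
      field_simp
    rw [← h2]
    exact mul_le_mul_of_nonneg_left h1 hC₁0.le
  have hψ2 : ((n : ℝ) + 1) * (C₁ * ψ) ≤ η * Real.log 2 / 2 := by
    have h1 : ψ ≤ η * Real.log 2 / (2 * C₁ * ((n : ℝ) + 1)) := by rw [hψ]; exact min_le_right _ _
    have h2 : ((n : ℝ) + 1) * (C₁ * (η * Real.log 2 / (2 * C₁ * ((n : ℝ) + 1)))) =
        η * Real.log 2 / 2 := by
      field_simp
    rw [← h2]
    exact mul_le_mul_of_nonneg_left (mul_le_mul_of_nonneg_left h1 hC₁0.le) (by positivity)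
  obtain ⟨D, hD⟩ : ∃ D : ℝ, D = ((n : ℝ) + 1) * (C₁ / Real.log 2 + 1) + c₁ + 8 +
      2 * Real.log (2 * m + 9) := ⟨_, rfl⟩
  have hlm : 0 ≤ Real.log (2 * (m : ℝ) + 9) := Real.log_nonneg (by
    have : (0 : ℝ) ≤ m := Nat.cast_nonneg m
    linarith)
  obtain ⟨J₁, hJ₁⟩ := exists_nat_ge (D / (η / 2))
  obtain ⟨J₂, hJ₂⟩ := exists_nat_ge (2 * C₁ / ((1 - w) * Real.log 2))
  obtain ⟨J₃, hJ₃⟩ := exists_nat_ge ((c₁ : ℝ) / h)
  refine (hpart.and (tms_bas htm hψ0)).mono (max (max J₁ J₂) J₃) ?_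
  rintro J hJ F A ⟨hall, hA, hTm⟩ a w₀ e g hwa haw hvis hgi hch
  have hJ0 : (0 : ℝ) ≤ J := Nat.cast_nonneg J
  have hJ1 : D ≤ η / 2 * J := by
    have h1 : (J₁ : ℝ) ≤ J := by
      exact_mod_cast ((le_max_left _ _).trans (le_max_left _ _)).trans hJ
    have h2 := hJ₁.trans h1
    rw [div_le_iff₀ (by linarith)] at h2
    linarith
  have hJ2 : 2 * C₁ ≤ (1 - w) * Real.log 2 * J := by
    have h1 : (J₂ : ℝ) ≤ J := by
      exact_mod_cast ((le_max_right _ _).trans (le_max_left _ _)).trans hJ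
    have h2 := hJ₂.trans h1
    rw [div_le_iff₀ (by positivity)] at h2
    linarith
  have hJ3 : (c₁ : ℝ) ≤ h * J := by
    have h1 : (J₃ : ℝ) ≤ J := by exact_mod_cast (le_max_right _ _).trans hJ
    have h2 := hJ₃.trans h1
    rw [div_le_iff₀ hh] at h2
    linarith
  obtain ⟨v, hv⟩ : ∃ v, v = ⌊w * J⌋₊ - a := ⟨_, rfl⟩
  rw [← hv] at hvis hgi
  have hwJ : ⌊w * J⌋₊ ≤ J := fl_le hw1.le J
  obtain ⟨x, hx⟩ : ∃ x : ℕ, x = ⌈C₁ * (ψ * J + 1) / Real.log 2⌉₊ := ⟨_, rfl⟩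
  have hu1' : Real.exp (C₁ * (ψ * J + 1)) ≤ 2 ^ x := by
    have e1 : C₁ * (ψ * J + 1) / Real.log 2 ≤ x := by rw [hx]; exact Nat.le_ceil _
    rw [div_le_iff₀ hl2] at e1
    have e2 : (2 : ℝ) ^ x = Real.exp (x * Real.log 2) := by
      rw [mul_comm, Real.exp_mul, Real.exp_log (by norm_num), Real.rpow_natCast]
    rw [e2]
    exact Real.exp_le_exp.2 e1
  have hu2 : (((n + 1 : ℕ) : ℝ)) * x ≤ η / 2 * J + ((n : ℝ) + 1) * (C₁ / Real.log 2 + 1) := by
    have e1 : (x : ℝ) < C₁ * (ψ * J + 1) / Real.log 2 + 1 := by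
      rw [hx]
      exact Nat.ceil_lt_add_one (by positivity)
    have e2 : C₁ * (ψ * J + 1) / Real.log 2 + 1 = C₁ * ψ * J / Real.log 2 + (C₁ / Real.log 2 + 1) := by
      ring
    rw [e2] at e1
    have e3 : ((n : ℝ) + 1) * (C₁ * ψ * J / Real.log 2) ≤ η / 2 * J := by
      have e4 : ((n : ℝ) + 1) * (C₁ * ψ * J / Real.log 2) =
          (((n : ℝ) + 1) * (C₁ * ψ)) * J / Real.log 2 := by ring
      rw [e4, div_le_iff₀ hl2]
      have := mul_le_mul_of_nonneg_right hψ2 hJ0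
      linarith
    push_cast
    have e5 := mul_le_mul_of_nonneg_left e1.le (show (0 : ℝ) ≤ (n : ℝ) + 1 by positivity)
    rw [mul_add] at e5
    linarith
  have hlog : 0 < C₁ / Real.log 2 := by positivity
  have hn10 : 0 ≤ ((n : ℝ) + 1) * (C₁ / Real.log 2 + 1) := by positivity
  have hc₁0 : (0 : ℝ) ≤ c₁ := Nat.cast_nonneg _
  have hloss : (((n + 1) * x + 1 + c₁ : ℕ) : ℝ) ≤ η * J - 3 := by
    push_cast
    push_cast at hu2
    linarith
  -- the label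
  have hηJ : (16 : ℝ) ≤ η * J := by linarith
  obtain ⟨B, hBA, hPe, V, z, z', G, hG⟩ := hlbp J F c a w₀ e v x g A (ψ * J) hA hc
    hwa (by omega)
    (fun l hl => by
      have h1 := hvis l (by omega)
      have h2 : ((e + g l + v + c₁ : ℕ) : ℝ) ≤ J := by
        push_cast
        linarith
      exact_mod_cast h2)
    (by positivity) hTm
    (by
      have e1 : (w₀ : ℝ) ≤ w * J := by
        have e2 : (w₀ : ℝ) ≤ ⌊w * J⌋₊ := by exact_mod_cast hwa.trans haw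
        exact e2.trans (Nat.floor_le (by positivity))
      have e3 : (1 - w) * J * Real.log 2 ≤ ((J : ℝ) - w₀) * Real.log 2 :=
        mul_le_mul_of_nonneg_right (by linarith) hl2.le
      have e4 := mul_le_mul_of_nonneg_right hψ1 hJ0
      linarith)
    hu1' hch n (Nat.lt_succ_self n) (by
      have e1 : (((n + 1) * x + 1 + c₁ : ℕ) : ℝ) ≤ ((g n + v : ℕ) : ℝ) := by
        push_cast
        push_cast at hloss
        have e2 : η * J ≤ (t + sl + h) * J := by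
          refine mul_le_mul_of_nonneg_right ?_ hJ0
          linarith
        linarith
      exact_mod_cast e1)
  obtain ⟨P₁, hP₁⟩ : ∃ P₁ : ℕ, P₁ = g n + v - ((n + 1) * x + 1 + c₁) := ⟨_, rfl⟩
  rw [← hP₁, show a + v = ⌊w * J⌋₊ by omega] at hG
  have hP₁' : (t + sl + h - η) * J + 3 ≤ P₁ := by
    have e1 : (((g n + v : ℕ) : ℝ)) - (((n + 1) * x + 1 + c₁ : ℕ) : ℝ) ≤ P₁ := by
      rw [sub_le_iff_le_add, hP₁]
      exact_mod_cast (by omega : g n + v ≤ g n + v - ((n + 1) * x + 1 + c₁) +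
        ((n + 1) * x + 1 + c₁))
    push_cast at e1 hloss
    linarith
  obtain ⟨hgr', ht', V₂, z₂, z₂', G₂, hG₂⟩ := hall B hBA hPe
  obtain ⟨P', hP'⟩ : ∃ P' : ℕ, P' = ⌊(t + sl + h / 2) * J⌋₊ := ⟨_, rfl⟩
  obtain ⟨e', he'⟩ : ∃ e' : ℕ, e' = ⌊(sl + 4 * η) * J⌋₊ := ⟨_, rfl⟩
  have hts0 : 0 ≤ (t + sl + h / 2) * J := mul_nonneg (by linarith) hJ0
  have hP'f : (P' : ℝ) ≤ (t + sl + h / 2) * J := by
    rw [hP']
    exact Nat.floor_le hts0
  have hP'l : (t + sl + h / 2) * J - 1 ≤ (P' : ℝ) := by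
    have := Nat.lt_floor_add_one ((t + sl + h / 2) * (J : ℝ))
    rw [hP']
    linarith
  have he'f : (e' : ℝ) ≤ (sl + 4 * η) * J := by
    rw [he']
    exact Nat.floor_le (by positivity)
  have he'l : (sl + 4 * η) * J - 1 ≤ (e' : ℝ) := by
    have := Nat.lt_floor_add_one ((sl + 4 * η) * (J : ℝ))
    rw [he']
    linarith
  have hhJ : h * J = 32 * (η * J) := by rw [← hηh]; ring
  have huJ : u * J ≤ (t + sl) * J := mul_le_mul_of_nonneg_right hut hJ0
  have hslJ : 0 ≤ sl * J := mul_nonneg hsl hJ0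
  obtain ⟨B', hB', hPB', hG'⟩ := hgr' P₁ P' e' ⌊η * J⌋₊ ⌊u * J⌋₊
    ⌊(u - sl - η) * J⌋₊ V V₂ z z' G z₂ z₂' G₂
    (hG.mono (Finset.Subset.refl _) (by rw [hK']; exact le_max_left _ _) le_rfl)
    (hG₂.mono (Finset.Subset.refl _) (show K₂ ≤ K' by rw [hK']; exact le_max_right _ _) le_rfl
      le_rfl le_rfl)
    le_rfl
    (by linarith)
    (by linarith)
    (by
      have e1 := Nat.lt_floor_add_one ((u - sl - η) * (J : ℝ))
      linarith)
    (by
      have e1 := Nat.floor_le (show 0 ≤ η * (J : ℝ) by positivity)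
      linarith)
  have hB'0 : 0 < Pe F.p B' := by
    have h1 : 0 < Pe F.p B := by
      have h2 : 0 < c₁ * Pe F.p B := hA.trans_le hPe
      exact pos_of_mul_pos_right h2 hc₁0
    linarith
  have hq := isLaw_cond F.isLaw hB'0
  have hP'J : P' ≤ J := by
    rw [hP']
    exact fl_le (by linarith) J
  have huJ' : ⌊u * J⌋₊ ≤ J := fl_le hu1.le J
  have h5 := ht' B' hB' (by linarith) V z z' (fun ω hω => hG'.cls ω hω)
  have h6 := Pool.EXW.one_cell hG' huJ' hP'J hq (fun ω hω =>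
    of_eq_true ((cond_pos_iff F.isLaw.nonneg B' True ω).1 hω).2)
    (c := fun ω => ((fun l : Fin n => F.X J ω (c l)), z' (slam F ⌊w * J⌋₊ ω), F.W ω))
    (fun ω ω' _ _ hh => by
      have h7 := Prod.ext_iff.mp hh
      have h8 := Prod.ext_iff.mp h7.2
      refine ⟨fun i hi => ?_, h8.1, congrArg Prod.fst h8.2⟩
      obtain ⟨l, hl, rfl⟩ := mem_image.1 hi
      exact congrFun h7.1 ⟨l, mem_range.1 hl⟩)
  have h7 := h5.trans h6
  have h8 : ((J : ℝ) - P' + e') * Real.log 2 ≤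
      (((1 - t) - (h / 2 - 4 * η)) * J + 1) * Real.log 2 := by
    refine mul_le_mul_of_nonneg_right ?_ hl2.le
    linarith
  have h9 : (h / 2 - 4 * η - η / 2) * Real.log 2 * J ≤ Real.log 2 + Real.log (2 * m + 9) := by
    linarith
  have h10 : (h / 2 - 4 * η - η / 2) = 23 / 2 * η := by linarith
  rw [h10] at h9
  have h11 : 23 / 2 * η * (1 / 2) * J ≤ 23 / 2 * η * Real.log 2 * J :=
    mul_le_mul_of_nonneg_right (mul_le_mul_of_nonneg_left hl2' (by positivity)) hJ0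
  linarith

/-- **The thresholds of the chains** from the absence of visible chains. `t`: the numbers. -/
theorem bet_le_gen {θ : ℝ} (hθ : 0 < θ) {S : PCl m} (hS : S.Ne)
    {P : List (Fin m) × Fin m → ℝ → ℝ → ℝ} (hP : ThrOf (chsys m θ) S P)
    {c : ℕ → Fin m} {w : ℝ} (hw0 : 0 < w) (hw1 : w < 1) {j : ℕ} {t : ℕ → ℝ} {T : ℝ}
    (ht0 : ∀ l ≤ j, w ≤ t l) (htT : ∀ l ≤ j, t l ≤ T) (hT1 : T < 1 - θ * w)
    (habs : ∀ i ≤ j, ∀ (K : ℕ) (h : ℝ), 0 < h → t i + h ≤ 1 →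
      Bas S (fun J F A => ∀ (a w₀ e : ℕ) (g : ℕ → ℕ), w₀ ≤ a → a ≤ ⌊w * J⌋₊ →
      (∀ l ≤ i, (e : ℝ) + g l + (((⌊w * J⌋₊ - a : ℕ) : ℝ)) + h * J ≤ J) →
      (t i + h) * J ≤ g i + (((⌊w * J⌋₊ - a : ℕ) : ℝ)) →
      ¬ ChN F c (i + 1) (fun _ => K) a w₀ e g A)) :
    bet P c j w w ≤ t j := by
  classical
  by_contra hcon
  push Not at hcon
  obtain ⟨p, hp⟩ : ∃ p, p = P ((List.range j).map c, c j) w w := ⟨_, rfl⟩
  have hbp : bet P c j w w = p := by rw [hp]; rfl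
  rw [hbp] at hcon
  obtain ⟨h, hh⟩ : ∃ h, h = min ((p - t j) / 8) ((1 - θ * w - T) / 8) :=
    ⟨_, rfl⟩
  have hh0 : 0 < h := by rw [hh]; exact lt_min (by linarith) (by linarith)
  have hh1 : 8 * h ≤ p - t j := by
    have : h ≤ (p - t j) / 8 := by rw [hh]; exact min_le_left _ _
    linarith
  have hh2 : 8 * h ≤ 1 - θ * w - T := by
    have : h ≤ (1 - θ * w - T) / 8 := by rw [hh]; exact min_le_right _ _
    linarith
  have hθw : 0 < θ * w := mul_pos hθ hw0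
  have htj := ht0 j le_rfl
  obtain ⟨K, hK⟩ := hP.att ((List.range j).map c, c j) w w h hw0 le_rfl hw1.le hh0 (by
    rw [← hp]
    linarith)
  rw [← hp] at hK
  have hno := Bas.all (S := S) (j + 1) (fun i hi => habs i (by omega) K h hh0 (by
      have := htT i (by omega)
      linarith))
  obtain ⟨J₁, hJ₁⟩ := exists_nat_ge (1 / h)
  refine Clp.not_false hS (Bas.clp ((hK.and hno).mono J₁ ?_))
  rintro J hJ F A ⟨hT, hno⟩
  have hJ0 : (0 : ℝ) ≤ J := Nat.cast_nonneg J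
  have hJ1 : 1 ≤ h * J := by
    have h1 : (J₁ : ℝ) ≤ J := by exact_mod_cast hJ
    have h2 := hJ₁.trans h1
    rw [div_le_iff₀ hh0] at h2
    linarith
  obtain ⟨a₀, w₀, g, h1, h2, h3, h4, h5, hch⟩ : Cht θ ((List.range j).map c) (c j) K ⌊w * J⌋₊
    ⌊w * J⌋₊ ⌊(p - h) * J⌋₊ J F A := hT
  have hlen : ((List.range j).map c).length = j := by simp
  rw [hlen] at h4 h5 hch
  obtain ⟨e, he⟩ : ∃ e, e = lipE θ K ⌊w * J⌋₊ J := ⟨_, rfl⟩
  rw [← he] at hch
  have hch' : ChN F c (j + 1) (fun _ => K) a₀ w₀ e g A := by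
    refine ChN.congr hch (fun l hl => ?_) fun _ _ => rfl
    rcases Nat.lt_or_ge l j with h6 | h6
    · simp [h6]
    · have : l = j := by omega
      subst this
      simp
  have hwJf : ((⌊w * J⌋₊ : ℕ) : ℝ) ≤ w * J := Nat.floor_le (by positivity)
  have heJ : (e : ℝ) ≤ θ * w * J := by
    have e1 : (e : ℝ) ≤ |θ| * ⌊w * J⌋₊ := by
      rw [he]
      unfold lipE
      rcases le_or_gt 0 (|θ| * (⌊w * J⌋₊ : ℝ) - (J : ℝ) / (K + 1)) with h6 | h6
      · have h7 := Nat.floor_le h6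
        have : 0 ≤ (J : ℝ) / (K + 1) := by positivity
        linarith
      · rw [Nat.floor_of_nonpos h6.le, Nat.cast_zero]
        positivity
    rw [abs_of_pos hθ] at e1
    have e2 := mul_le_mul_of_nonneg_left hwJf hθ.le
    linarith
  obtain ⟨v, hv⟩ : ∃ v, v = ⌊w * J⌋₊ - a₀ := ⟨_, rfl⟩
  obtain ⟨Y, hY⟩ : ∃ Y : ℕ → ℕ, Y = fun l => ⌊(t l + 2 * h) * J⌋₊ := ⟨_, rfl⟩
  have hYf : ∀ l ≤ j, (Y l : ℝ) ≤ (t l + 2 * h) * J := fun l hl => by
    rw [hY]
    refine Nat.floor_le (mul_nonneg ?_ hJ0)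
    linarith [ht0 l hl]
  have hYl : ∀ l, (t l + h) * J ≤ Y l := fun l => by
    have e1 := Nat.lt_floor_add_one ((t l + 2 * h) * (J : ℝ))
    have e2 : Y l = ⌊(t l + 2 * h) * J⌋₊ := by rw [hY]
    rw [e2]
    linarith
  have hYv : ∀ l ≤ j, v ≤ Y l := fun l hl => by
    have e1 : ⌊w * J⌋₊ ≤ Y l := by
      rw [hY]
      refine Nat.floor_le_floor (mul_le_mul_of_nonneg_right ?_ hJ0)
      linarith [ht0 l hl]
    omega
  have hYj : Y j ≤ ⌊(p - h) * J⌋₊ := by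
    rw [hY]
    exact Nat.floor_le_floor (mul_le_mul_of_nonneg_right (by linarith) hJ0)
  have hexi : ∃ i, Y i ≤ g i + v := ⟨j, by omega⟩
  obtain ⟨i, hi⟩ : ∃ i, i = Nat.find hexi := ⟨_, rfl⟩
  have hi1 : Y i ≤ g i + v := by
    rw [hi]
    exact Nat.find_spec hexi
  have hi2 : ∀ l < i, g l + v < Y l := by
    intro l hl
    have := Nat.find_min hexi (by rw [hi] at hl; exact hl)
    omega
  have hij : i ≤ j := by
    rw [hi]
    exact Nat.find_min' hexi (by omega)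
  obtain ⟨g', hg'⟩ : ∃ g' : ℕ → ℕ, g' = fun l => if l = i then Y i - v else g l := ⟨_, rfl⟩
  have hgi : g' i = Y i - v := by rw [hg']; exact if_pos rfl
  have hgl : ∀ l, l ≠ i → g' l = g l := fun l hl => by rw [hg']; exact if_neg hl
  have hch2 : ChN F c (i + 1) (fun _ => K) a₀ w₀ e g' A := by
    obtain ⟨G, H, hG⟩ := hch'
    have h6 : ChN F c (i + 1) (fun _ => K) a₀ w₀ e g A :=
      ⟨G, H, hG.mono (by omega) (fun _ => le_rfl) le_rfl le_rfl⟩
    refine h6.last (fun l hl => hgl l (by omega)) fun l hl => ?_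
    have : l = i := by omega
    subst this
    rw [hgi]
    have := hYv l hij
    omega
  refine hno i (by omega) a₀ w₀ e g' h1 h2 (fun l hl => ?_) ?_ hch2
  · rw [← hv]
    have e1 : g' l + v ≤ Y l := by
      rcases Nat.eq_or_lt_of_le hl with h6 | h6
      · rw [h6, hgi]
        have := hYv i hij
        omega
      · rw [hgl l (by omega)]
        exact (hi2 l h6).le
    have e2 : (g' l : ℝ) + v ≤ (t l + 2 * h) * J :=
      le_trans (by exact_mod_cast e1) (hYf l (by omega))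
    have e3 : t l ≤ T := htT l (by omega)
    have e4 : (t l + 2 * h) * (J : ℝ) ≤ (1 - θ * w - 6 * h) * J :=
      mul_le_mul_of_nonneg_right (by linarith) hJ0
    linarith
  · rw [← hv]
    have e1 : Y i ≤ g' i + v := by
      rw [hgi]
      have := hYv i hij
      omega
    have e2 : (Y i : ℝ) ≤ g' i + v := by exact_mod_cast e1
    exact (hYl i).trans e2

end Pool.HV57
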