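import Pool.Agent.H3.PM.Msa

/-!
# The numbers of the affine chart and exactness

`sum_le`: in a class with the labels of the affine chart at the window `w₀` and exactness of the
three coordinates with the loss `b`, the numbers of the chart satisfy `b ≤ ∑ (1 - β i)`.
-/

set_option autoImplicit false

namespace Pool.HV57

open Finset Real MvPolynomial
open Pool.Agent.H49.Ent Pool.Agent.H32.Dense Pool.STK Pool.KA Pool.KSAT Pool.K2S Pool.PB
  Pool.STAT Pool.GEN Pool.M3F Pool.KM7 Pool.S6C Pool.JPN Pool.PM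

variable {m J : ℕ}

/-- The number of the values of a digit in an interval. -/
theorem log_bx {g J : ℕ} {β φ : ℝ} (hβ : β ≤ 1) (hφ : 0 ≤ φ) (hg : |(g : ℝ) - β * J| ≤ φ * J) :
    Real.log (2 * (2 ^ J * (2 / 2 ^ g)) + 1) ≤ (1 - β + φ) * J * Real.log 2 + Real.log 5 := by
  have hJ0 : (0 : ℝ) ≤ J := Nat.cast_nonneg J
  have hl0 : 0 < Real.log 2 := Real.log_pos one_lt_two
  have e2 : ∀ n : ℕ, (2 : ℝ) ^ n = Real.exp (n * Real.log 2) := by
    intro n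
    rw [mul_comm, Real.exp_mul, Real.exp_log (by norm_num), Real.rpow_natCast]
  obtain ⟨E, hE⟩ : ∃ E : ℝ, E = Real.exp ((1 - β + φ) * J * Real.log 2) := ⟨_, rfl⟩
  have h1 : (1 : ℝ) ≤ E := by
    rw [hE]
    exact Real.one_le_exp (mul_nonneg (mul_nonneg (by linarith) hJ0) hl0.le)
  have h2 : (2 : ℝ) ^ J / 2 ^ g ≤ E := by
    rw [e2, e2, ← Real.exp_sub, hE]
    refine Real.exp_le_exp.2 ?_
    have := (abs_le.1 hg).1
    have h3 := mul_le_mul_of_nonneg_right (show (J : ℝ) - g ≤ (1 - β + φ) * J by linarith) hl0.le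
    linarith
  have h3 : 2 * ((2 : ℝ) ^ J * (2 / 2 ^ g)) + 1 ≤ 5 * E := by
    have h4 : 2 * ((2 : ℝ) ^ J * (2 / 2 ^ g)) = 4 * (2 ^ J / 2 ^ g) := by ring
    rw [h4]
    linarith
  refine (Real.log_le_log (by positivity) h3).trans (le_of_eq ?_)
  rw [Real.log_mul (by norm_num) (by linarith), hE, Real.log_exp]
  ring

section mem

variable {N : VNum} {φ : ℝ} {K : ℕ} {F : Fam m J} {c : ℕ → Fin m} {A : F.Ω → Prop}

/-- A coordinate of the chart given the coordinates before it. -/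
theorem X_bx (d : VDat N φ K F c A) {ω ω' : F.Ω} (hω : A ω) (hω' : A ω') {i : ℕ} (hi : i < 3)
    (hu : d.u' (slam F ⌊N.w0 * J⌋₊ ω) = d.u' (slam F ⌊N.w0 * J⌋₊ ω')) (hT : F.T ω = F.T ω')
    (hX : ∀ j < i, F.X J ω (c j) = F.X J ω' (c j)) :
    |((F.X J ω (c i) - F.X J ω' (c i) : ℤ) : ℝ)| ≤ 2 ^ J * (2 / 2 ^ d.gU i) := by
  have hu' : d.u (ptr F J ω) = d.u (ptr F J ω') := by
    rw [d.clsU ω hω, d.clsU ω' hω', hu]
  have a1 := d.posU ω hω i hi
  have a2 := d.posU ω' hω' i hi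
  have e1 : eval (px c (ptr F J ω)) (d.Q (d.u (ptr F J ω)) (i + 1)) =
      eval (px c (ptr F J ω')) (d.Q (d.u (ptr F J ω')) (i + 1)) := by
    rw [hu']
    exact eval_px (d.tri _ _) hT hX
  unfold ntc at a1 a2
  rw [e1] at a1
  have e2 : px c (ptr F J ω) (i + 1) = (F.X J ω (c i) : ℝ) / 2 ^ J := px_succ c _ i
  have e3 : px c (ptr F J ω') (i + 1) = (F.X J ω' (c i) : ℝ) / 2 ^ J := px_succ c _ i
  rw [e2] at a1
  rw [e3] at a2
  have p1 : (0 : ℝ) < 2 ^ J := by positivity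
  have a3 : |(F.X J ω (c i) : ℝ) / 2 ^ J - (F.X J ω' (c i) : ℝ) / 2 ^ J| ≤ 2 / 2 ^ d.gU i := by
    have e4 : (2 : ℝ) / 2 ^ d.gU i = 1 / 2 ^ d.gU i + 1 / 2 ^ d.gU i := by ring
    rw [e4]
    rw [abs_le] at a1 a2 ⊢
    constructor <;> linarith [a1.1, a1.2, a2.1, a2.2]
  have e5 : ((F.X J ω (c i) - F.X J ω' (c i) : ℤ) : ℝ) =
      2 ^ J * ((F.X J ω (c i) : ℝ) / 2 ^ J - (F.X J ω' (c i) : ℝ) / 2 ^ J) := by
    push_cast
    field_simp
  rw [e5, abs_mul, abs_of_pos p1]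
  exact mul_le_mul_of_nonneg_left a3 p1.le

/-- The entropy of the point in the chart. -/
theorem ch_up (d : VDat N φ K F c A) (hφ0 : 0 ≤ φ) (hβ : ∀ i < 3, N.β i ≤ 1)
    (hA : 0 < Pe F.p A) :
    CH (Pool.Agent.H49.Ent.cond F.p A True) (fun ω (i : Fin 3) => F.X J ω (c i))
      (fun ω => (d.u' (slam F ⌊N.w0 * J⌋₊ ω), F.W ω)) ≤
      ∑ i ∈ range 3, ((1 - N.β i + φ) * J * Real.log 2 + Real.log 5) := by
  obtain ⟨q, hq⟩ : ∃ q, q = Pool.Agent.H49.Ent.cond F.p A True := ⟨_, rfl⟩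
  have hql : IsLaw q := by
    rw [hq]
    exact isLaw_cond F.isLaw hA
  have hsup : ∀ ω, 0 < q ω → A ω := by
    intro ω h
    rw [hq, cond_pos_iff F.isLaw.nonneg] at h
    exact of_eq_true h.2
  rw [← hq]
  obtain ⟨Z, hZ⟩ : ∃ Z : F.Ω → _, Z = fun ω => (d.u' (slam F ⌊N.w0 * J⌋₊ ω), F.W ω) := ⟨_, rfl⟩
  rw [← hZ]
  have hZ1 : ∀ ω ω', Z ω = Z ω' → d.u' (slam F ⌊N.w0 * J⌋₊ ω) = d.u' (slam F ⌊N.w0 * J⌋₊ ω') ∧
      F.T ω = F.T ω' := by
    intro ω ω' h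
    rw [hZ] at h
    have h2 := Prod.ext_iff.1 h
    exact ⟨h2.1, (Prod.ext_iff.1 h2.2).1⟩
  have q0 := hql.nonneg
  have c1 := CH_le_add q0 (fun ω (i : Fin 3) => F.X J ω (c i)) (fun ω => F.X J ω (c 0)) Z
  have c2 := CH_le_add q0 (fun ω (i : Fin 3) => F.X J ω (c i)) (fun ω => F.X J ω (c 1))
    (fun ω => (F.X J ω (c 0), Z ω))
  have c3 := CH_le_add q0 (fun ω (i : Fin 3) => F.X J ω (c i)) (fun ω => F.X J ω (c 2))
    (fun ω => (F.X J ω (c 1), (F.X J ω (c 0), Z ω)))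
  have b1 : CH q (fun ω => F.X J ω (c 0)) Z ≤ (1 - N.β 0 + φ) * J * Real.log 2 + Real.log 5 := by
    refine (CH_le_int q0 hql.sum_one _ _ (fun _ => 2 ^ J * (2 / 2 ^ d.gU 0))
      fun ω ω' h h' hZZ => ?_).trans ?_
    · obtain ⟨k1, k2⟩ := hZ1 _ _ hZZ
      exact X_bx d (hsup _ h) (hsup _ h') (by norm_num) k1 k2
        (fun j hj => absurd hj (Nat.not_lt_zero j))
    · rw [Ex_const hql.sum_one]
      exact log_bx (hβ 0 (by norm_num)) hφ0 (d.numU 0 (by norm_num))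
  have b2 : CH q (fun ω => F.X J ω (c 1)) (fun ω => (F.X J ω (c 0), Z ω)) ≤
      (1 - N.β 1 + φ) * J * Real.log 2 + Real.log 5 := by
    refine (CH_le_int q0 hql.sum_one _ _ (fun _ => 2 ^ J * (2 / 2 ^ d.gU 1))
      fun ω ω' h h' hZZ => ?_).trans ?_
    · obtain ⟨k1, k2⟩ := hZ1 _ _ (Prod.ext_iff.1 hZZ).2
      refine X_bx d (hsup _ h) (hsup _ h') (by norm_num) k1 k2 fun j hj => ?_
      have e1 : j = 0 := by omega
      subst e1
      exact (Prod.ext_iff.1 hZZ).1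
    · rw [Ex_const hql.sum_one]
      exact log_bx (hβ 1 (by norm_num)) hφ0 (d.numU 1 (by norm_num))
  have b3 : CH q (fun ω => F.X J ω (c 2)) (fun ω => (F.X J ω (c 1), (F.X J ω (c 0), Z ω))) ≤
      (1 - N.β 2 + φ) * J * Real.log 2 + Real.log 5 := by
    refine (CH_le_int q0 hql.sum_one _ _ (fun _ => 2 ^ J * (2 / 2 ^ d.gU 2))
      fun ω ω' h h' hZZ => ?_).trans ?_
    · have hX1 : F.X J ω (c 1) = F.X J ω' (c 1) := (Prod.ext_iff.1 hZZ).1
      have hX0 : F.X J ω (c 0) = F.X J ω' (c 0) :=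
        (Prod.ext_iff.1 (Prod.ext_iff.1 hZZ).2).1
      obtain ⟨k1, k2⟩ := hZ1 _ _ (Prod.ext_iff.1 (Prod.ext_iff.1 hZZ).2).2
      refine X_bx d (hsup _ h) (hsup _ h') (by norm_num) k1 k2 fun j hj => ?_
      have e1 : j = 0 ∨ j = 1 := by omega
      rcases e1 with rfl | rfl
      · exact hX0
      · exact hX1
    · rw [Ex_const hql.sum_one]
      exact log_bx (hβ 2 (by norm_num)) hφ0 (d.numU 2 (by norm_num))
  have b4 : CH q (fun ω (i : Fin 3) => F.X J ω (c i))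
      (fun ω => (F.X J ω (c 2), (F.X J ω (c 1), (F.X J ω (c 0), Z ω)))) = 0 := by
    refine CH_eq_zero q0 fun ω ω' h h' hZZ => ?_
    have hX2 : F.X J ω (c 2) = F.X J ω' (c 2) := (Prod.ext_iff.1 hZZ).1
    have hX1 : F.X J ω (c 1) = F.X J ω' (c 1) := (Prod.ext_iff.1 (Prod.ext_iff.1 hZZ).2).1
    have hX0 : F.X J ω (c 0) = F.X J ω' (c 0) :=
      (Prod.ext_iff.1 (Prod.ext_iff.1 (Prod.ext_iff.1 hZZ).2).2).1
    funext i
    fin_cases i
    · exact hX0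
    · exact hX1
    · exact hX2
  rw [b4] at c3
  rw [Finset.sum_range_succ, Finset.sum_range_succ, Finset.sum_range_succ, Finset.sum_range_zero]
  linarith

end mem

theorem bas_no57 {S : PCl m} (hS : S.Ne) (h : Bas S (fun _ _ _ => False)) : False := by
  obtain ⟨τ, hτ, J₁, h⟩ := h
  obtain ⟨J, hJ, F, A, hA⟩ := hS τ hτ J₁
  exact h J hJ F A hA

/-- **The numbers of the chart and exactness.** -/
theorem sum_le {S : PCl m} (hS : S.Ne) (hpos : Bas S (fun _ F A => 0 < Pe F.p A))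
    {c : ℕ → Fin m} {N : VNum} {K : ℕ} (hl : LabV S c N K) (hβ : ∀ i < 3, N.β i ≤ 1) {b : ℝ}
    (hex : ExvY S N.w0 (fun J F ω (i : Fin 3) => F.X J ω (c i)) b) :
    b ≤ ∑ i ∈ range 3, (1 - N.β i) := by
  by_contra hcon
  push Not at hcon
  have hl0 : 0 < Real.log 2 := Real.log_pos one_lt_two
  obtain ⟨δ, hδ⟩ : ∃ δ, δ = b - ∑ i ∈ range 3, (1 - N.β i) := ⟨_, rfl⟩
  have hδ0 : 0 < δ := by
    rw [hδ]
    linarith
  obtain ⟨κ, hκ, Hl⟩ := hl (δ / 8) (by linarith)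
  have Hl' : Bas S (fun J F A => ∃ B : F.Ω → Prop, Sub B A ∧ Pe F.p A ≤ (1 / κ) * Pe F.p B ∧
      Nonempty (VDat N (δ / 8) K F c B)) := by
    refine Bas.mono 0 Hl ?_
    rintro J - F A ⟨B, h1, h2, h3⟩
    refine ⟨B, h1, ?_, h3⟩
    rw [one_div, ← div_eq_inv_mul, le_div_iff₀ hκ, mul_comm]
    exact h2
  have H := bas_snd (by positivity) Hl' (hpos.and hex)
  obtain ⟨J₃, hJ₃⟩ := exists_nat_gt (6 * Real.log 5 / (δ * Real.log 2))
  refine bas_no57 hS (Bas.mono J₃ H ?_)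
  rintro J hJ F A ⟨A', hsub, hmass, ⟨d⟩, hp, hexA⟩
  have hJ0 : (0 : ℝ) ≤ J := Nat.cast_nonneg J
  have g1 := hexA d.U d.u d.u' (fun ω hω => d.clsU ω hω)
  have g2 := ch_up d (by linarith) hβ hp
  have g3 := g1.trans g2
  rw [Finset.sum_range_succ, Finset.sum_range_succ, Finset.sum_range_succ,
    Finset.sum_range_zero] at g3
  have g5 : b = δ + ((1 - N.β 0) + (1 - N.β 1) + (1 - N.β 2)) := by
    rw [hδ, Finset.sum_range_succ, Finset.sum_range_succ, Finset.sum_range_succ,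
      Finset.sum_range_zero]
    ring
  rw [g5] at g3
  have h5 : 0 < δ * Real.log 2 := mul_pos hδ0 hl0
  have k3 : (J₃ : ℝ) ≤ J := by exact_mod_cast hJ
  have g4 : 6 * Real.log 5 < J * (δ * Real.log 2) := by
    have h4 := hJ₃.trans_le k3
    rwa [div_lt_iff₀ h5] at h4
  have g7 : 0 < Real.log 5 := Real.log_pos (by norm_num)
  nlinarith

end Pool.HV57
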