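import Pool.Agent.H57.HV.Prs
import Pool.Agent.H57.HV.Vol
import Pool.Agent.H49.PM.Num
import Pool.Agent.H49.PM.Pa
import Pool.Agent.H2.GEN.Rlv

/-!
# The falling level at a jump of the volume: the class at two windows

`CV`: the facts about a class at two windows `w₀ < w₁`, for the order `c` of the window `w₁`: the
order is nearly greedy at `w₀`. `NV`: the inequalities of the numbers. `cv_nv`: they hold at a jump
of the volume.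
-/

set_option autoImplicit false

namespace Pool.HV57

open Finset Real
open Pool.Agent.H49.Ent Pool.Agent.H32.Dense Pool.KA Pool.KSAT Pool.K2S Pool.PB
open Pool.STK hiding pr2
open Pool.GEN Pool.S6C Pool.GRW Pool.PKG Pool.R1
open Pool.CHT (chsys bet tau Up1 RelvC TmH)
open Pool.JPN (Dn1)
open Pool.LBT (ThrOf)
open Pool.ONE (lst)
open Pool.FRN (Wgd)
open Pool.M3F (ExvY)
open Pool.PM93 (AflOf)
open Pool.PM (PkA)
open Pool.NJ69 (pr2 pr2_zero pr2_one wv_pair)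
open Pool.STAT.CLO (Inj)

/-- **The class at two windows.** -/
structure CV (S : PCl 4) (c : ℕ → Fin 4) (al : ℝ) (g₀ : ℝ → ℝ) (Nc : ℚ → ℚ → ℝ) (θ : ℝ)
    (PP : List (Fin 4) × Fin 4 → ℝ → ℝ → ℝ) (w₀ w₁ vs V₀ : ℝ) (p : ℝ → ℝ) : Prop where
  ne : S.Ne
  mem : ∀ (τ : ℝ) (J : ℕ) (F : Fam 4 J) (A : F.Ω → Prop), S.St τ J F A →
    F.Tr ∧ F.Tm (τ * J) ∧ F.Rb (τ * J) ∧ Real.exp (-(τ * J)) ≤ Pe F.p A
  x2 : ∀ (τ : ℝ) (J : ℕ) (F : Fam 4 J) (A : F.Ω → Prop), S.St τ J F A → ∀ ω i, |F.x ω i| ≤ 2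
  act : ActM Nc al g₀
  actb : ActB Nc S (c 0)
  thr : ThrOf (chsys 4 θ) S PP
  inj : Inj c 3
  rel : RelvC S c 3 (fun l => bet PP c l w₀ w₀) w₀ w₀ (θ * w₀ / 2)
  bt : ∀ σ : ℝ, 0 < σ → ∃ W : ℚ, w₀ ≤ W ∧ (W : ℝ) ≤ 1 ∧ bet PP c 1 W W ≤ bet PP c 1 w₀ w₀ + σ
  ey1 : ∀ ρ : ℝ, 0 < ρ → ExvY S w₁ (fun J F ω (i : Fin 2) => F.X J ω (c i))
    ((∑ l ∈ range 2, (1 - bet PP c l w₁ w₁)) - ρ)
  ey0 : ∀ ρ : ℝ, 0 < ρ → ExvY S w₀ (fun J F ω (i : Fin 2) => F.X J ω (c i))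
    ((∑ l ∈ range 2, (1 - bet PP c l w₀ w₀)) - ρ)
  ex0 : ∀ ρ : ℝ, 0 < ρ → ExvY S w₀ (fun J F ω (i : Fin 3) => F.X J ω (c i)) ((3 - V₀) - ρ)
  af : AflOf S c 2 p
  cp : ContinuousAt p w₀
  wd0 : w₀ ∈ Wgd PP
  wd1 : w₁ ∈ Wgd PP
  dn0 : ∀ i, Dn1 (PP i) w₀
  dn1 : ∀ i, Dn1 (PP i) w₁
  tau0 : bet PP c 1 w₀ w₀ ≤ tau PP c 1 2 w₀ w₀ + vs

/-- **The numbers.** `b0`, `b1`: the thresholds at the windows `w₀`, `w₁`, `V₀`, `V₁`: the volumes,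
`g`: the jump, `p`: the threshold of the affine labels of `c 2`. -/
structure NV (w₀ w₁ θ g δ vs V₀ V₁ p : ℝ) (b0 b1 : ℕ → ℝ) : Prop where
  w00 : 0 < w₀
  w01 : w₀ < w₁
  b00 : b0 0 = w₀
  wb0 : w₀ ≤ b0 1
  b01 : b0 1 ≤ b0 2 + vs
  b02 : b0 2 ≤ V₀ - w₀ - b0 1 + vs
  b10 : b1 0 = w₁
  wb1 : w₁ ≤ b1 1
  b11 : b1 1 ≤ b1 2
  X : V₁ - w₁ - b1 1 ≤ b1 2
  X1 : V₁ - w₁ - b1 1 ≤ 1
  mX : b1 1 ≤ V₁ - w₁ - b1 1
  jmp : V₀ + g ≤ V₁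
  d0 : w₁ - w₀ ≤ δ
  d1 : b1 1 - b0 1 ≤ δ
  pw : w₀ ≤ p
  pb : b0 1 ≤ p + vs
  p1 : p ≤ 1
  th : 0 < θ
  thg : 8 * θ ≤ g
  dl : 0 ≤ δ
  dg : 8 * δ ≤ g
  vs0 : δ < vs
  vsg : 8 * vs ≤ g
  t1 : b0 1 ≤ 1 - g / 2
  t1' : b1 1 ≤ 1 - g / 2
  t2 : V₀ - w₀ - b0 1 + vs ≤ 1 - g / 2

section pk

variable {hn : 2 ≤ 4} {S : PCl 4} {P : ℝ → ℝ → ℝ} {r : ℝ → ℝ}
  {P' : ℕ → List (Fin 4) × Fin 4 → ℝ → ℝ → ℝ} {Λ : Finset (Fin 4) → Fin 4 → ℝ → ℝ → ℝ}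
  {pa : Equiv.Perm (Fin (4 - 1)) → Fin 4 → ℝ → ℝ}

/-- Chains of `c 2` over `c 0` alone. -/
theorem tau_ge (H : Pk hn S P r P' Λ) (hF2 : FZX 2) {c : ℕ → Fin 4} (hc0 : c 0 = 0)
    (hc2 : c 2 ≠ 0) {w : ℝ} (hw : Gwd P P' Λ w) (j : ℕ) :
    Λ {0} (c 2) w w ≤ tau (P' j) c 1 2 w w := by
  have hwv := wv_pair (a₀ := (0 : Fin 4)) (k := c 2) H (by norm_num) rfl hw
  obtain ⟨c', hc'⟩ : ∃ c' : ℕ → Fin 4, c' = fun i => if i = 0 then 0 else c 2 := ⟨_, rfl⟩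
  have h0 : c' 0 = 0 := by rw [hc']; rfl
  have h1 : c' 1 = c 2 := by rw [hc']; rfl
  have hcc := pr_c h0
  rw [h1] at hcc
  have h2 := vst_le_bet (tht_pos j) H.ne (C₀ := 6) H.tmc H.pos H.lam (H.cht j) (pr_inj hc2) hcc
    ⟨hwv, hw.con j⟩ (pr_exa H hF2 hc2 hw) (j := 1) (k := 1) le_rfl (by norm_num)
  have h3 : vs Λ (pr2 0 (c 2)) w (1 + 1) = Λ {0} (c 2) w w := pr_v2 H hw
  have h4 : (List.range 1).map c' = (List.range 1).map c := by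
    show [c' 0] = [c 0]
    rw [h0, hc0]
  rw [h3, h1, h4] at h2
  exact h2

/-- **The facts hold** at a jump of the volume. -/
theorem cv_nv (H : PkA hn S P r P' Λ pa) (hF2 : FZX 2) (hF : FZX 3) {al : ℝ}
    {g₀ : ℝ → ℝ} {s : Fin 4 → ℝ} {d : ℕ → ℝ} {e : ℝ} {K₀ : ℕ} {Nc : ℚ → ℚ → ℝ} (hal : 0 < al)
    (hg₀ : ∀ ε : ℝ, 0 < ε → 0 < g₀ ε) (hC : ClX s d al g₀ e K₀ Nc S)
    {w₀ w₁ g δ vs : ℝ} (h0 : Gwd P P' Λ w₀) (h1 : Gwd P P' Λ w₁)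
    (hpa : ∀ σ i, ContinuousAt (pa σ i) w₀) (h01 : w₀ < w₁)
    (hd0 : w₁ - w₀ ≤ δ)
    (hd : ∀ k : Fin 4, k ≠ 0 → k ≠ lst hn → Λ {0} k w₁ w₁ - Λ {0} k w₀ w₀ ≤ δ)
    (hjmp : vol Λ w₀ + g ≤ vol Λ w₁) {j : ℕ} (hj : 8 * tht j ≤ g) (hδg : 8 * δ ≤ g)
    (hvs : δ < vs) (hvsg : 8 * vs ≤ g) (hvsθ : 8 * vs ≤ tht j * w₀) :
    CV S (cc hn (ow Λ w₁)) al g₀ Nc (tht j) (P' j) w₀ w₁ vs (vol Λ w₀) (pa (ow Λ w₁) 2) ∧
    NV w₀ w₁ (tht j) g δ vs (vol Λ w₀) (vol Λ w₁) (pa (ow Λ w₁) 2 w₀)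
      (fun l => bet (P' j) (cc hn (ow Λ w₁)) l w₀ w₀)
      (fun l => bet (P' j) (cc hn (ow Λ w₁)) l w₁ w₁) ∧
    bet (P' j) (cc hn (ow Λ w₁)) 1 w₀ w₀ = Λ {0} (cc hn (ow Λ w₁) 1) w₀ w₀ := by
  obtain ⟨σ, hσd⟩ : ∃ σ, σ = ow Λ w₁ := ⟨_, rfl⟩
  obtain ⟨c, hcd⟩ : ∃ c, c = cc hn σ := ⟨_, rfl⟩
  have hσ : σ ∈ Og 4 := by rw [hσd]; exact h1.ow.1
  have hc0 : c 0 = 0 := by rw [hcd]; exact cc0 hn hσ
  have hc1 : c 1 ≠ 0 := by rw [hcd]; exact cc_ne0 hn hσ (by norm_num) (by norm_num)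
  have hc2 : c 2 ≠ 0 := by rw [hcd]; exact cc_ne0 hn hσ (by norm_num) (by norm_num)
  have hc1' : c 1 ≠ lst hn := by rw [hcd]; exact cc_ne hn σ (by norm_num)
  have hc2' : c 2 ≠ lst hn := by rw [hcd]; exact cc_ne hn σ (by norm_num)
  have hcj : Set.InjOn c (Set.Iio 4) := by rw [hcd]; exact cc_inj hn σ
  have hinj : Inj c 3 := fun l hl l' hl' h => hcj (Set.mem_Iio.2 (by omega))
    (Set.mem_Iio.2 (by omega)) h
  have hcj3 : Set.InjOn c (Set.Iio 3) := hcj.mono fun x hx => by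
    rw [Set.mem_Iio] at hx ⊢
    omega
  have w00 := h0.pos
  have w0l := h0.lt
  have w1p := h1.pos
  have w1l := h1.lt
  -- the numbers over the active coordinate
  obtain ⟨n1, hn1⟩ : ∃ n1, n1 = Λ {0} (c 1) w₀ w₀ := ⟨_, rfl⟩
  obtain ⟨n2, hn2⟩ : ∃ n2, n2 = Λ {0} (c 2) w₀ w₀ := ⟨_, rfl⟩
  obtain ⟨m1, hm1⟩ : ∃ m1, m1 = Λ {0} (c 1) w₁ w₁ := ⟨_, rfl⟩
  obtain ⟨m2, hm2⟩ : ∃ m2, m2 = Λ {0} (c 2) w₁ w₁ := ⟨_, rfl⟩
  obtain ⟨X, hX⟩ : ∃ X, X = Pool.GEN.vs Λ (fun i => bse (ow Λ w₁ i)) w₁ 3 := ⟨_, rfl⟩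
  have k1 : m1 - n1 ≤ δ := by rw [hm1, hn1]; exact hd _ hc1 hc1'
  have k2 : m2 - n2 ≤ δ := by rw [hm2, hn2]; exact hd _ hc2 hc2'
  have k3 : n1 ≤ m1 := by
    rw [hn1, hm1]
    exact Pool.NJ69.lam_mono H.lam {0} (c 1) h01.le
  have hv1 : vol Λ w₁ = w₁ + m1 + X := by
    rw [hm1, hX, hcd, hσd]
    exact vol3 H.toPk h1
  obtain ⟨g1, g2, g3⟩ := gr_cc (hn := hn) H.toPk h1
  rw [← hσd, ← hcd, ← hm1] at g1
  rw [← hσd, ← hcd, ← hm1, ← hm2] at g2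
  have g3' : m1 ≤ X := by
    rw [hX, hm1, hcd, hσd]
    exact g3
  have hX1 : X ≤ 1 := by rw [hX]; exact vs_le1 H.lam _ w1l.le 3
  have hv0 : n2 ≤ vol Λ w₀ - w₀ - n1 := by
    rw [hn1, hn2, hcd]
    exact vol_ge H.toPk h0 hσ
  have hwn1 : w₀ ≤ n1 := by rw [hn1]; exact H.lam.low _ _ _ _ w0l.le
  have hθ0 := tht_pos j
  have hθw : tht j * w₀ ≤ tht j := mul_le_of_le_one_right hθ0.le w0l.le
  have hθw1 : tht j * w₁ ≤ tht j := mul_le_of_le_one_right hθ0.le w1l.le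
  have hδ0 : 0 ≤ δ := by linarith
  have hg0 : 0 < g := by linarith
  have t1 : n1 ≤ 1 - g / 2 := by linarith
  have t1' : m1 ≤ 1 - g / 2 := by linarith
  have t2 : vol Λ w₀ - w₀ - n1 + vs ≤ 1 - g / 2 := by linarith
  -- the thresholds
  have e00 : bet (P' j) c 0 w₀ w₀ = w₀ := bet0 H.toPk hF2 hc0 hc1 h0 (by linarith)
  have e01 : bet (P' j) c 1 w₀ w₀ = n1 := by
    rw [hn1]
    exact bet1 H.toPk hF2 hc0 hc1 h0 (by rw [← hn1]; linarith)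
  have e10 : bet (P' j) c 0 w₁ w₁ = w₁ := bet0 H.toPk hF2 hc0 hc1 h1 (by linarith)
  have e11 : bet (P' j) c 1 w₁ w₁ = m1 := by
    rw [hm1]
    exact bet1 H.toPk hF2 hc0 hc1 h1 (by rw [← hm1]; linarith)
  have e02 : n2 ≤ bet (P' j) c 2 w₀ w₀ := by
    rw [hn2]
    exact bet2_ge H.toPk hF2 hc0 hcj3 h0 j
  have e02' : bet (P' j) c 2 w₀ w₀ ≤ vol Λ w₀ - w₀ - n1 + vs := by
    have h2 := bet2_le (hn := hn) H.toPk hF hF2 hσ h0 (sl := vs) (by linarith)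
      (by rw [← hcd, ← hn1, ← hn2]; linarith) (j := j) (by rw [← hcd, ← hn1]; linarith)
    rw [← hcd, ← hn1] at h2
    exact h2
  have e12 : X ≤ bet (P' j) c 2 w₁ w₁ := by
    have h2 := vst_le_bet hθ0 H.ne (C₀ := 6) H.tmc H.pos H.lam (H.cht j) (bse_ci (ow Λ w₁))
      (c := cc hn (ow Λ w₁)) (fun i => cc_lt hn _ i.2) ⟨h1.ow.2, h1.con j⟩
      (pk_exa H.toPk hF h1.ow.1 h1.ow.2) (j := 2) (k := 2) le_rfl (by norm_num)
    rw [hX, hcd, hσd]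
    exact h2
  -- the affine labels
  have hact := hC.actb _ (show ((c 0 : Fin 4) : ℕ) = 0 by rw [hc0]; rfl)
  have haf : AflOf S c 2 (pa σ 2) := by
    rw [hcd]
    exact H.afl σ 2
  have hmem := Pool.PM49.pk_mem H.toPk
  have e3 : n2 ≤ pa σ 2 w₀ := by
    have h2 := Pool.PM49.afl_ge_lam H.ne hmem (Pool.PM49.pk_x2 H.toPk) H.lam hal
      (hC.actm.q hg₀) hact haf w00 w0l (hpa σ 2)
    rw [hc0] at h2
    rw [hn2]
    exact h2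
  have hwd := Wgd.self (h0.wgd j) w0l
  have hS : TmH S := Pool.CHT.tmH_of_reg hmem
  rw [← hσd, ← hcd]
  have hca : ((c 0 : Fin 4) : ℕ) = 0 := by rw [hc0]; rfl
  have hc10 : c 1 ≠ c 0 := by rw [hc0]; exact hc1
  refine ⟨⟨H.ne, hmem, Pool.PM49.pk_x2 H.toPk, hC.actm, hact, H.cht j, hinj, ?_, ?_, ?_, ?_, ?_,
    haf, hpa σ 2, h0.wgd j, h1.wgd j, h0.dn j, h1.dn j, ?_⟩, ?_, e01.trans hn1⟩
  · refine Pool.CHT.relvC_of (H.cht j) hθ0 hS hcj3 h0.pos le_rfl w0l (fun l _ => hwd.up _ l)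
      (fun l hl => ?_) (vs := vs) (by linarith) (fun i hi l hl => ?_) ?_ ?_
    · rcases (show l = 0 ∨ l = 1 ∨ l = 2 by omega) with rfl | rfl | rfl
      · rw [e00]
        linarith
      · rw [e01]
        linarith
      · linarith
    · rcases (show i = 1 ∨ i = 2 by omega) with rfl | rfl
      · have hl0 : l = 0 := by omega
        subst hl0
        rw [e00, e01]
        linarith
      · rcases (show l = 0 ∨ l = 1 by omega) with rfl | rfl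
        · rw [e00]
          linarith
        · rw [e01]
          linarith
    · have := mul_pos hθ0 w00
      linarith
    · have := mul_pos hθ0 w00
      linarith
  · intro σ' hσ'
    obtain ⟨V, o₀, hV, ho₀, hup⟩ := hwd.up c 1
    obtain ⟨W, hW1, hW2⟩ := exists_rat_btwn
      (show w₀ < min (w₀ + o₀) (min 1 (w₀ + σ' / (V + 1))) from
        lt_min (by linarith) (lt_min w0l (by
          have := div_pos hσ' (show 0 < V + 1 by linarith)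
          linarith)))
    have hW3 := hW2.trans_le (min_le_left _ _)
    have hW4 := hW2.trans_le ((min_le_right _ _).trans (min_le_left _ _))
    have hW5 := hW2.trans_le ((min_le_right _ _).trans (min_le_right _ _))
    refine ⟨W, hW1.le, hW4.le, ?_⟩
    have h3 := hup ((W : ℝ) - w₀) (by linarith) (by linarith)
    rw [show w₀ + ((W : ℝ) - w₀) = W by ring] at h3
    have h4 : (W : ℝ) - w₀ ≤ σ' / (V + 1) := by linarith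
    rw [le_div_iff₀ (by linarith)] at h4
    nlinarith
  · intro ρ hρ
    have h2 := Pool.PM49.exv_pair H.toPk (by norm_num) hF2 (c := c) hca hc10 h1 hρ
    have e2 : ∑ l ∈ range 2, (1 - bet (P' j) c l w₁ w₁) =
        (1 - w₁) + (1 - Λ {c 0} (c 1) w₁ w₁) := by
      rw [Finset.sum_range_succ, Finset.sum_range_one, e10, e11, hm1, hc0]
    rw [e2]
    exact h2
  · intro ρ hρ
    have h2 := Pool.PM49.exv_pair H.toPk (by norm_num) hF2 (c := c) hca hc10 h0 hρ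
    have e2 : ∑ l ∈ range 2, (1 - bet (P' j) c l w₀ w₀) =
        (1 - w₀) + (1 - Λ {c 0} (c 1) w₀ w₀) := by
      rw [Finset.sum_range_succ, Finset.sum_range_one, e00, e01, hn1, hc0]
    rw [e2]
    exact h2
  · intro ρ hρ
    have h2 := exv_gw (hn := hn) H.toPk hF h0 hρ
    refine exv_perm (c := fun i : Fin 3 => cc hn (ow Λ w₀) i) (fun i => ?_) (by
      have e1 : (((4 - 1 : ℕ) : ℝ) - vol Λ w₀) - ρ = (3 - vol Λ w₀) - ρ := by norm_num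
      rw [e1] at h2
      exact h2)
    have h3 := cc_lt hn (ow Λ w₀) (j := i) i.2
    obtain ⟨i', hi'⟩ := bse_cov (n := 4) σ (ow Λ w₀) ⟨i, i.2⟩
    refine ⟨i', ?_⟩
    show c i' = cc hn (ow Λ w₀) i
    rw [h3, hcd, cc_lt hn σ (j := i') i'.2]
    exact hi'
  · have h2 := tau_ge H.toPk hF2 hc0 hc2 h0 j
    rw [← hn2] at h2
    rw [e01]
    linarith
  · refine ⟨w00, h01, e00, ?_, ?_, ?_, e10, ?_, ?_, ?_, ?_, ?_, hjmp, hd0, ?_,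
      haf.low' _ w00.le w0l.le, ?_, haf.up _, hθ0, hj, hδ0, hδg, hvs, hvsg, ?_, ?_, ?_⟩
    · rw [e01]
      exact hwn1
    · rw [e01]
      linarith
    · rw [e01]
      exact e02'
    · rw [e11]
      linarith
    · rw [e11]
      linarith
    · rw [e11]
      linarith
    · rw [e11]
      linarith
    · rw [e11]
      linarith
    · rw [e11, e01]
      exact k1
    · rw [e01]
      linarith
    · rw [e01]
      exact t1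
    · rw [e11]
      exact t1'
    · rw [e01]
      exact t2

end pk

end Pool.HV57
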