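import Pool.Agent.H57.HV.Cls
import Pool.Agent.H53.HV.LabD
import Pool.Agent.H81.PM.LabV
import Pool.Agent.H71.MKC.Prw
import Pool.Agent.H88.PM.Fls
import Pool.Agent.H58.AFF.HesD
import Pool.Agent.H24.HES.Shv
import Pool.Agent.H3.PM.Vps
import Pool.Agent.H35.M.NoAtC

/-!
# The falling level at a jump of the volume

`vnum`: the numbers of the labels. `hv_lab`, `hv_con`, `hv_hes`, `hv_shv`, `hv_fls`: the parts of
`VPlS`. `hv_two`: `VPlS` at two windows around a jump of the volume. `hv_pk`: the hypothesis of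
`no_atom_pk`; `cont_top`: the volume is continuous, if the labels at another time are few bits given
the exact point.
-/

set_option autoImplicit false

namespace Pool.HV57

open Finset Real
open Pool.Agent.H49.Ent Pool.Agent.H32.Dense Pool.STK Pool.KA Pool.KSAT Pool.K2S Pool.PB
open Pool.GEN Pool.S6C Pool.GRW Pool.PKG Pool.R1
open Pool.CHT (chsys bet tau Up1 RelvC TmH Csl)
open Pool.JPN (Dn1)
open Pool.LBT (ThrOf)
open Pool.ONE (lst)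
open Pool.FRN (Wgd)
open Pool.M3F (ExvY)
open Pool.PM93 (AflOf)
open Pool.PM (PkA VNum LabV ShvS FlsS VPlS)
open Pool.PLN (H2S ConS HesS EzS WinS LrS Nums)
open Pool.STR (FinW)
open Pool.STAT.CLO (Inj)

/-- **The numbers of the labels.** -/
noncomputable def vnum (w₀ w₁ θ s₀ : ℝ) (b0 b1 : ℕ → ℝ) (p : ℝ) : VNum where
  w0 := w₀
  w1 := w₁
  g0 := fun l => if l = 2 then b0 2 + s₀ else b0 l
  g := fun l => if l = 2 then min (b1 2) (1 - 2 * θ) + θ else b1 l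
  s0 := s₀
  s := θ
  β := fun i => if i = 2 then p else b0 i
  sl := s₀

section parts

variable {S : PCl 4} {c : ℕ → Fin 4} {al : ℝ} {g₀ : ℝ → ℝ} {Nc : ℚ → ℚ → ℝ} {θ : ℝ}
  {PP : List (Fin 4) × Fin 4 → ℝ → ℝ → ℝ} {w₀ w₁ g δ vs V₀ V₁ s₀ : ℝ} {p : ℝ → ℝ}

theorem vnum_fall (b0 b1 : ℕ → ℝ) (q : ℝ) :
    (vnum w₀ w₁ θ s₀ b0 b1 q).fall = min (b1 2) (1 - 2 * θ) - q := by
  unfold VNum.fall vnum
  simp

theorem CV.pos (h : CV S c al g₀ Nc θ PP w₀ w₁ vs V₀ p) : Bas S (fun _ F A => 0 < Pe F.p A) :=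
  ⟨1, one_pos, 0, fun J _ F A hA => lt_of_lt_of_le (Real.exp_pos _) (h.mem 1 J F A hA).2.2.2⟩

theorem CV.wn (h : CV S c al g₀ Nc θ PP w₀ w₁ vs V₀ p) (w : ℝ) : TmWn S w :=
  Pool.PLN.tmWn_reg h.mem w

/-- **The labels.** -/
theorem hv_lab (hC : CV S c al g₀ Nc θ PP w₀ w₁ vs V₀ p)
    (hN : NV w₀ w₁ θ g δ vs V₀ V₁ (p w₀) (fun l => bet PP c l w₀ w₀) (fun l => bet PP c l w₁ w₁))
    (hal : 0 < al) (hg₀ : ∀ ε : ℝ, 0 < ε → 0 < g₀ ε) {e : ℝ} (he : Csl 3 3 * vs < e)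
    (heθ : e + 2 * vs < θ * w₀) (hs0 : e + vs ≤ s₀) (hsg : 8 * s₀ ≤ g) :
    ∃ K : ℕ, 1 ≤ K ∧ LabV S c (vnum w₀ w₁ θ s₀ (fun l => bet PP c l w₀ w₀)
      (fun l => bet PP c l w₁ w₁) (p w₀)) K := by
  obtain ⟨b0, hb0⟩ : ∃ b0 : ℕ → ℝ, b0 = fun l => bet PP c l w₀ w₀ := ⟨_, rfl⟩
  obtain ⟨b1, hb1⟩ : ∃ b1 : ℕ → ℝ, b1 = fun l => bet PP c l w₁ w₁ := ⟨_, rfl⟩
  have e0 : ∀ l, bet PP c l w₀ w₀ = b0 l := fun l => by rw [hb0]
  have e1 : ∀ l, bet PP c l w₁ w₁ = b1 l := fun l => by rw [hb1]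
  rw [← hb0, ← hb1] at hN ⊢
  have w00 := hN.w00
  have w01 := hN.w01
  have n0 := hN.b00
  have n1 := hN.wb0
  have n2 := hN.b01
  have n3 := hN.b02
  have n4 := hN.b10
  have n5 := hN.wb1
  have n6 := hN.b11
  have n7 := hN.X
  have n8 := hN.X1
  have n9 := hN.mX
  have n10 := hN.jmp
  have n11 := hN.pw
  have n12 := hN.pb
  have n13 := hN.th
  have n14 := hN.thg
  have n15 := hN.t1
  have n16 := hN.t1'
  have n17 := hN.t2
  have n18 := hN.dl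
  have n19 := hN.vs0
  have n20 := hN.dg
  have n21 := hN.vsg
  have hw1 : w₁ < 1 := by linarith
  have hw0 : w₀ < 1 := by linarith
  have hθ1 : θ * w₁ ≤ θ := mul_le_of_le_one_right n13.le hw1.le
  have hθ0 : θ * w₀ ≤ θ := mul_le_of_le_one_right n13.le hw0.le
  have hc0 : Csl 3 3 * vs ≥ 0 := mul_nonneg (Nat.cast_nonneg _) (by linarith)
  have htau : ∀ {w : ℝ}, 0 < w → w < 1 → ∀ l, w ≤ tau PP c 0 l w w := fun h h' l =>
    hC.thr.low _ _ _ h.le le_rfl h'.le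
  have hm1 : min (b1 2) (1 - 2 * θ) ≤ 1 - 2 * θ := min_le_right _ _
  obtain ⟨K, hK, hD⟩ := Pool.JPN.labD_hv (N := (vnum w₀ w₁ θ s₀ b0 b1 (p w₀)).toNums)
    (Q := 1 - 2 * θ) (vs := vs) (e := e) hC.ne hC.mem hC.x2 hal (hC.act.q hg₀) hC.actb hC.thr n13
    hC.inj w00 w01.le hw1 hC.wd0 hC.wd1 hC.dn0 hC.dn1
    (fun l hl => by
      show (if l = 2 then b0 2 + s₀ else b0 l) = bet PP c l w₀ w₀
      rw [if_neg (by omega), e0])
    (fun l hl => by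
      show (if l = 2 then min (b1 2) (1 - 2 * θ) + θ else b1 l) = bet PP c l w₁ w₁
      rw [if_neg (by omega), e1])
    (by show (if (2 : ℕ) = 2 then b0 2 + s₀ else b0 2) = bet PP c 2 w₀ w₀ + s₀
        rw [if_pos rfl, e0])
    (by show (if (2 : ℕ) = 2 then min (b1 2) (1 - 2 * θ) + θ else b1 2) =
          min (bet PP c 2 w₁ w₁) (1 - 2 * θ) + θ
        rw [if_pos rfl, e1])
    (by show bet PP c 0 w₁ w₁ ≤ tau PP c 0 1 w₁ w₁
        rw [e1, n4]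
        exact htau (by linarith) hw1 1)
    (by show bet PP c 0 w₁ w₁ ≤ bet PP c 1 w₁ w₁
        rw [e1, e1, n4]
        exact n5)
    (by show bet PP c 1 w₁ w₁ ≤ bet PP c 2 w₁ w₁
        rw [e1, e1]
        exact n6)
    (fun l hl => by
      show bet PP c l w₁ w₁ + θ * w₁ < 1
      rw [e1]
      rcases (show l = 0 ∨ l = 1 by omega) with rfl | rfl
      · linarith
      · linarith)
    (by show bet PP c 1 w₁ w₁ ≤ 1 - 2 * θ
        rw [e1]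
        linarith)
    (by show 1 - 2 * θ + θ * w₁ < 1
        linarith)
    (by show θ * w₁ ≤ θ
        exact hθ1)
    (by show min (bet PP c 2 w₁ w₁) (1 - 2 * θ) + θ ≤ 1
        rw [e1]
        linarith)
    hC.ey1
    (by show bet PP c 0 w₀ w₀ ≤ tau PP c 0 1 w₀ w₀
        rw [e0, n0]
        exact htau w00 hw0 1)
    (by show bet PP c 0 w₀ w₀ ≤ bet PP c 1 w₀ w₀
        rw [e0, e0, n0]
        exact n1)
    (fun l hl => by
      show bet PP c l w₀ w₀ ≤ tau PP c l 2 w₀ w₀ + vs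
      rcases (show l = 0 ∨ l = 1 by omega) with rfl | rfl
      · rw [e0, n0]
        have := htau w00 hw0 2
        linarith
      · exact hC.tau0)
    (fun l hl => by
      show bet PP c l w₀ w₀ + θ * w₀ < 1
      rw [e0]
      rcases (show l = 0 ∨ l = 1 ∨ l = 2 by omega) with rfl | rfl | rfl
      · linarith
      · linarith
      · linarith)
    (by linarith) he heθ hs0
    (by show bet PP c 2 w₀ w₀ + s₀ ≤ 1
        rw [e0]
        linarith)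
    hC.ey0
  refine ⟨K, hK, ?_⟩
  refine Pool.PM81.labV_of (N := vnum w₀ w₁ θ s₀ b0 b1 (p w₀)) hK hC.af (γ := g / 4)
    (by linarith) w00 (by show w₀ + g / 4 ≤ 1
                          linarith)
    (fun i hi => by
      show (if i = 2 then b0 2 + s₀ else b0 i) + g / 4 ≤ 1
      rw [if_neg (by omega)]
      rcases (show i = 0 ∨ i = 1 by omega) with rfl | rfl
      · linarith
      · linarith)
    (by show (0 : ℝ) ≤ s₀
        linarith) le_rfl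
    (fun i hi => by
      show (if i = 2 then p w₀ else b0 i) = if i = 2 then b0 2 + s₀ else b0 i
      rw [if_neg (by omega), if_neg (by omega)])
    (by show (if (2 : ℕ) = 2 then p w₀ else b0 2) = p w₀
        rw [if_pos rfl])
    (by show w₀ ≤ (if (2 : ℕ) = 2 then p w₀ else b0 2) + s₀
        rw [if_pos rfl]
        linarith)
    (fun i hi => by
      show (if i = 2 then b0 2 + s₀ else b0 i) ≤ (if (2 : ℕ) = 2 then p w₀ else b0 2) + s₀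
      rw [if_neg (by omega), if_pos rfl]
      rcases (show i = 0 ∨ i = 1 by omega) with rfl | rfl
      · linarith
      · linarith)
    (hC.wn _) (fun ρ hρ => ?_) hD
  have h2 := hC.ey0 ρ hρ
  have h3 : ∑ l ∈ range 2, (1 - (vnum w₀ w₁ θ s₀ b0 b1 (p w₀)).g0 l) =
      ∑ l ∈ range 2, (1 - bet PP c l w₀ w₀) := Finset.sum_congr rfl fun l hl => by
    have hl2 : l < 2 := Finset.mem_range.1 hl
    show 1 - (if l = 2 then b0 2 + s₀ else b0 l) = _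
    rw [if_neg (by omega), e0]
  rw [h3]
  exact h2

/-- **The fall of `c 2`** is almost the jump. -/
theorem hv_fall (hC : CV S c al g₀ Nc θ PP w₀ w₁ vs V₀ p)
    (hN : NV w₀ w₁ θ g δ vs V₀ V₁ (p w₀) (fun l => bet PP c l w₀ w₀) (fun l => bet PP c l w₁ w₁))
    {K : ℕ} (hl : LabV S c (vnum w₀ w₁ θ s₀ (fun l => bet PP c l w₀ w₀)
      (fun l => bet PP c l w₁ w₁) (p w₀)) K) :
    p w₀ ≤ V₀ - w₀ - bet PP c 1 w₀ w₀ ∧
    g - 2 * δ - 2 * θ ≤ min (bet PP c 2 w₁ w₁) (1 - 2 * θ) - p w₀ := by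
  have k0 := hN.b00
  have k1 := hN.wb0
  have k2 := hN.t1
  have k3 := hN.p1
  have k4 := hN.dg
  have k5 := hN.dl
  have k6 := hN.thg
  have k7 := hN.th
  have k8 := hN.X
  have k9 := hN.X1
  have k10 := hN.d0
  have k11 := hN.d1
  have k12 := hN.jmp
  have key : p w₀ ≤ V₀ - w₀ - bet PP c 1 w₀ w₀ := by
    refine le_of_forall_pos_le_add fun ρ hρ => ?_
    have h2 := sum_le hC.ne hC.pos hl (fun i hi => by
      show (if i = 2 then p w₀ else bet PP c i w₀ w₀) ≤ 1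
      rcases (show i = 0 ∨ i = 1 ∨ i = 2 by omega) with rfl | rfl | rfl
      · rw [if_neg (by norm_num)]
        linarith
      · rw [if_neg (by norm_num)]
        linarith
      · rw [if_pos rfl]
        exact k3) (hC.ex0 ρ hρ)
    rw [Finset.sum_range_succ, Finset.sum_range_succ, Finset.sum_range_succ,
      Finset.sum_range_zero] at h2
    have h3 : (3 - V₀) - ρ ≤ 0 + (1 - bet PP c 0 w₀ w₀) + (1 - bet PP c 1 w₀ w₀) +
      (1 - p w₀) := h2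
    linarith
  refine ⟨key, ?_⟩
  rcases min_choice (bet PP c 2 w₁ w₁) (1 - 2 * θ) with h | h <;> rw [h] <;> linarith

/-- **(CON)** at the two windows. -/
theorem hv_con (al : ℝ) (hal : 0 < al) : ∃ εa c₁ C₁ : ℝ, 0 < εa ∧ 0 < c₁ ∧ 1 ≤ C₁ ∧
    ∀ {S : PCl 4} {c : ℕ → Fin 4} {g₀ : ℝ → ℝ} {Nc : ℚ → ℚ → ℝ} {θ : ℝ}
      {PP : List (Fin 4) × Fin 4 → ℝ → ℝ → ℝ} {w₀ w₁ g δ vs V₀ V₁ s₀ e h : ℝ} {p : ℝ → ℝ},
      CV S c al g₀ Nc θ PP w₀ w₁ vs V₀ p →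
      NV w₀ w₁ θ g δ vs V₀ V₁ (p w₀) (fun l => bet PP c l w₀ w₀) (fun l => bet PP c l w₁ w₁) →
      (∀ ε : ℝ, 0 < ε → 0 < g₀ ε) → H2S S w₀ w₁ e → 0 ≤ e → 0 < h → h ≤ g₀ εa → 4 * h ≤ g →
      h < θ * w₀ → δ < c₁ * h → e ≤ c₁ * h → 8 * (C₁ * h) ≤ g → 0 ≤ s₀ → 4 * s₀ ≤ θ * w₀ →
      8 * s₀ ≤ g → ∀ (K : ℕ) (c₀ : ℝ), 0 < c₀ →
        ConS S c (vnum w₀ w₁ θ s₀ (fun l => bet PP c l w₀ w₀)
      (fun l => bet PP c l w₁ w₁) (p w₀)).toNums K h c₀ := by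
  obtain ⟨εa, c₁, C₁, h1, h2, h3, hcon⟩ := Pool.PLN71.con_all al hal
  refine ⟨εa, c₁, C₁, h1, h2, h3, ?_⟩
  intro S c g₀ Nc θ PP w₀ w₁ g δ vs V₀ V₁ s₀ e h p hC hN hg₀ hH2 he hh hhg hhc hhθ k1 k3 k4 k5 k6
    k7 K c₀ hc₀
  obtain ⟨b0, hb0⟩ : ∃ b0 : ℕ → ℝ, b0 = fun l => bet PP c l w₀ w₀ := ⟨_, rfl⟩
  obtain ⟨b1, hb1⟩ : ∃ b1 : ℕ → ℝ, b1 = fun l => bet PP c l w₁ w₁ := ⟨_, rfl⟩
  have e0 : ∀ l, bet PP c l w₀ w₀ = b0 l := fun l => by rw [hb0]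
  have e1 : ∀ l, bet PP c l w₁ w₁ = b1 l := fun l => by rw [hb1]
  have hrel := hC.rel
  have hey1 := hC.ey1
  rw [← hb0] at hrel
  rw [← hb0, ← hb1] at hN ⊢
  have w00 := hN.w00
  have w01 := hN.w01
  have n0 := hN.b00
  have n1 := hN.wb0
  have n2 := hN.b01
  have n3 := hN.b02
  have n4 := hN.b10
  have n5 := hN.wb1
  have n6 := hN.b11
  have n7 := hN.X
  have n8 := hN.X1
  have n9 := hN.mX
  have n10 := hN.jmp
  have n13 := hN.th
  have n14 := hN.thg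
  have n15 := hN.t1
  have n16 := hN.t1'
  have n17 := hN.t2
  have n18 := hN.dl
  have n19 := hN.vs0
  have n20 := hN.dg
  have n21 := hN.vsg
  have n22 := hN.d0
  have n23 := hN.d1
  have hw1 : w₁ < 1 := by linarith
  have hw0 : w₀ < 1 := by linarith
  have hθw : 0 < θ * w₀ := hh.trans hhθ
  have hθ0 : θ * w₀ ≤ θ := mul_le_of_le_one_right n13.le hw0.le
  have hmin : V₁ - w₁ - b1 1 - 2 * θ ≤ min (b1 2) (1 - 2 * θ) := by
    rcases min_choice (b1 2) (1 - 2 * θ) with h | h <;> rw [h] <;> linarith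
  have hmin1 : b1 1 ≤ min (b1 2) (1 - 2 * θ) := le_min n6 (by linarith)
  obtain ⟨φ₂, hφ₂, H⟩ := hcon hC.mem hC.act hg₀ hC.actb hC.thr hC.inj (W := w₀) (w1 := w₁)
    (be0 := b0) (be1 := b1) (e := e) (e₀ := θ * w₀ / 2)
    (e₀' := θ * w₀ / 4) (γ := θ / 2) (h := h) w00 w01.le hw1
    (fun ρ hρ => by
      have h2 := hey1 ρ hρ
      have h3 : ∑ l ∈ range 2, (1 - bet PP c l w₁ w₁) = ∑ l ∈ range 2, (1 - b1 l) :=
        Finset.sum_congr rfl fun l _ => by rw [e1]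
      rw [h3] at h2
      exact h2)
    (fun l hl => by
      rcases (show l = 0 ∨ l = 1 by omega) with rfl | rfl
      · linarith
      · linarith)
    (fun l hl => by
      rcases (show l = 0 ∨ l = 1 by omega) with rfl | rfl
      · exact n4.ge
      · exact n5)
    n1 (by
      rw [← e0]
      exact hC.thr.low _ _ _ w00.le le_rfl hw0.le)
    (fun σ hσ => by
      obtain ⟨W', q1, q2, q3⟩ := hC.bt σ hσ
      rw [e0] at q3
      exact ⟨W', q1, by exact_mod_cast q2, q3⟩)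
    hrel (by linarith) (by linarith) (by linarith) hH2 he hh hhg (by linarith)
    (by linarith) hhθ (by linarith) (by rw [n4]; linarith) (by linarith) k3
  obtain ⟨φ₁, hφ₁, H⟩ := H K
  refine H (vnum w₀ w₁ θ s₀ b0 b1 (p w₀)).toNums rfl rfl (fun l hl => ?_) (fun l hl => ?_) ?_ ?_
    (fun l hl => ?_) ?_ ?_ ?_ ?_ ?_ c₀ hc₀
  · show (if l = 2 then min (b1 2) (1 - 2 * θ) + θ else b1 l) = b1 l
    rw [if_neg (by omega)]
  · show (if l = 2 then b0 2 + s₀ else b0 l) = b0 l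
    rw [if_neg (by omega)]
  · show (if (2 : ℕ) = 2 then b0 2 + s₀ else b0 2) - s₀ - b0 2 ≤ φ₁
    rw [if_pos rfl]
    linarith
  · show b0 2 - ((if (2 : ℕ) = 2 then b0 2 + s₀ else b0 2) - s₀) ≤ φ₂
    rw [if_pos rfl]
    linarith
  · show (if l = 2 then min (b1 2) (1 - 2 * θ) + θ else b1 l) + 2 * (θ / 2) ≤
      (if (2 : ℕ) = 2 then min (b1 2) (1 - 2 * θ) + θ else b1 2)
    rw [if_neg (by omega), if_pos rfl]
    rcases (show l = 0 ∨ l = 1 by omega) with rfl | rfl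
    · linarith
    · linarith
  · show w₁ + 2 * (θ / 2) ≤ (if (2 : ℕ) = 2 then min (b1 2) (1 - 2 * θ) + θ else b1 2)
    rw [if_pos rfl]
    linarith
  · show (if (2 : ℕ) = 2 then b0 2 + s₀ else b0 2) < 1
    rw [if_pos rfl]
    linarith
  · show (if (2 : ℕ) = 2 then b0 2 + s₀ else b0 2) ≤
      max (if (1 : ℕ) = 2 then b0 2 + s₀ else b0 1)
        ((if (2 : ℕ) = 2 then b0 2 + s₀ else b0 2) - s₀) + θ * w₀ / 4
    rw [if_pos rfl, if_neg (by norm_num)]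
    have := le_max_right (b0 1) (b0 2 + s₀ - s₀)
    linarith
  · show C₁ * h ≤ ((if (2 : ℕ) = 2 then min (b1 2) (1 - 2 * θ) + θ else b1 2) - θ) -
      ((if (2 : ℕ) = 2 then b0 2 + s₀ else b0 2) - s₀)
    rw [if_pos rfl, if_pos rfl]
    linarith
  · show C₁ * h ≤ (if (2 : ℕ) = 2 then min (b1 2) (1 - 2 * θ) + θ else b1 2) -
      (if (2 : ℕ) = 2 then b0 2 + s₀ else b0 2)
    rw [if_pos rfl, if_pos rfl]
    linarith

/-- **(HES)** at the two windows. -/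
theorem hv_hes (hC : CV S c al g₀ Nc θ PP w₀ w₁ vs V₀ p)
    (hN : NV w₀ w₁ θ g δ vs V₀ V₁ (p w₀) (fun l => bet PP c l w₀ w₀) (fun l => bet PP c l w₁ w₁))
    {h e' : ℝ} (hh : 0 < h) (hhc : 4 * h ≤ g) (he : 3 * (w₁ - w₀) + h < e') {K : ℕ} (K' : ℕ)
    (hcon : ∀ c₁ : ℝ, 0 < c₁ → ConS S c (vnum w₀ w₁ θ s₀ (fun l => bet PP c l w₀ w₀)
      (fun l => bet PP c l w₁ w₁) (p w₀)).toNums K h c₁) {c₀ : ℝ}
    (hc₀ : 0 < c₀) : HesS S c (vnum w₀ w₁ θ s₀ (fun l => bet PP c l w₀ w₀)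
      (fun l => bet PP c l w₁ w₁) (p w₀)).toNums (vnum w₀ w₁ θ s₀ (fun l => bet PP c l w₀ w₀)
      (fun l => bet PP c l w₁ w₁) (p w₀)).toNums K K K' e' c₀ := by
  obtain ⟨b0, hb0⟩ : ∃ b0 : ℕ → ℝ, b0 = fun l => bet PP c l w₀ w₀ := ⟨_, rfl⟩
  obtain ⟨b1, hb1⟩ : ∃ b1 : ℕ → ℝ, b1 = fun l => bet PP c l w₁ w₁ := ⟨_, rfl⟩
  have e0 : ∀ l, bet PP c l w₀ w₀ = b0 l := fun l => by rw [hb0]
  have e1 : ∀ l, bet PP c l w₁ w₁ = b1 l := fun l => by rw [hb1]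
  rw [← hb0, ← hb1] at hN hcon ⊢
  have w00 := hN.w00
  have w01 := hN.w01
  have n0 := hN.b00
  have n1 := hN.wb0
  have n4 := hN.b10
  have n5 := hN.wb1
  have n6 := hN.b11
  have n13 := hN.th
  have n14 := hN.thg
  have n15 := hN.t1
  have n16 := hN.t1'
  have n18 := hN.dl
  have n20 := hN.dg
  have hw1 : w₁ < 1 := by linarith
  have hw0 : w₀ < 1 := by linarith
  have hmin1 : b1 1 ≤ min (b1 2) (1 - 2 * θ) := le_min n6 (by linarith)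
  have hTm := Pool.CHT.tmH_of_reg hC.mem
  refine Pool.PLN.hesS (fun τ J F A hS => (hC.mem τ J F A hS).2.2.2)
    (N := (vnum w₀ w₁ θ s₀ b0 b1 (p w₀)).toNums) (N₁ := (vnum w₀ w₁ θ s₀ b0 b1 (p w₀)).toNums)
    (D := max K' 1) (h := h) w00.le w01.le hh ?_ ?_ ?_ ?_ ?_ ?_ ?_ (le_max_right _ _)
    (le_max_left _ _) he hc₀ hcon (fun b c₁ hb hc₁ => ?_) (fun b c₁ hb hc₁ => ?_)
    (fun b c₁ hb hc₁ => ?_)
  · show w₁ + h < 1
    linarith
  · show (if (0 : ℕ) = 2 then min (b1 2) (1 - 2 * θ) + θ else b1 0) + h < 1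
    rw [if_neg (by norm_num)]
    linarith
  · show (if (1 : ℕ) = 2 then min (b1 2) (1 - 2 * θ) + θ else b1 1) + h < 1
    rw [if_neg (by norm_num)]
    linarith
  · show w₁ < (if (2 : ℕ) = 2 then min (b1 2) (1 - 2 * θ) + θ else b1 2)
    rw [if_pos rfl]
    linarith
  · show (if (0 : ℕ) = 2 then min (b1 2) (1 - 2 * θ) + θ else b1 0) <
      (if (2 : ℕ) = 2 then min (b1 2) (1 - 2 * θ) + θ else b1 2)
    rw [if_neg (by norm_num), if_pos rfl]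
    linarith
  · show (if (1 : ℕ) = 2 then min (b1 2) (1 - 2 * θ) + θ else b1 1) <
      (if (2 : ℕ) = 2 then min (b1 2) (1 - 2 * θ) + θ else b1 2)
    rw [if_neg (by norm_num), if_pos rfl]
    linarith
  · show (if (1 : ℕ) = 2 then b0 2 + s₀ else b0 1) < 1
    rw [if_neg (by norm_num)]
    linarith
  · exact Pool.PLA.ezs hTm.1 hTm.2 w00.le hw0 hb hc₁
  · exact Pool.PLN.winS hC.mem (show (0 : ℝ) ≤ w₁ by linarith) hw1 hb hc₁
  · have hD0 : (0 : ℝ) ≤ (max K' 1 : ℕ) := Nat.cast_nonneg _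
    refine ⟨b * c₁ / (12 * (max K' 1 : ℕ) + 12), ?_⟩
    refine Pool.PLN.lrS hC.mem w00.le w01.le hw1 ?_ ?_ ?_ ?_ (fun ρ hρ => ?_) (by positivity) hc₁ ?_
    · show (if (0 : ℕ) = 2 then min (b1 2) (1 - 2 * θ) + θ else b1 0) < 1
      rw [if_neg (by norm_num)]
      linarith
    · show (if (1 : ℕ) = 2 then min (b1 2) (1 - 2 * θ) + θ else b1 1) < 1
      rw [if_neg (by norm_num)]
      linarith
    · show w₁ < (if (2 : ℕ) = 2 then min (b1 2) (1 - 2 * θ) + θ else b1 2)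
      rw [if_pos rfl]
      linarith
    · show (if (1 : ℕ) = 2 then b0 2 + s₀ else b0 1) < 1
      rw [if_neg (by norm_num)]
      linarith
    · have h2 := hC.ey1 ρ hρ
      have h3 : ∑ l ∈ range 2, (1 - (vnum w₀ w₁ θ s₀ b0 b1 (p w₀)).g l) =
          ∑ l ∈ range 2, (1 - bet PP c l w₁ w₁) := Finset.sum_congr rfl fun l hl => by
        have hl2 : l < 2 := Finset.mem_range.1 hl
        show 1 - (if l = 2 then min (b1 2) (1 - 2 * θ) + θ else b1 l) = _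
        rw [if_neg (by omega), e1]
      rw [h3]
      exact h2
    · rw [mul_div_cancel₀ _ (by positivity), mul_div_cancel_right₀ _ hc₁.ne']

/-- **The sheets of `c 2`.** -/
theorem hv_shv (hC : CV S c al g₀ Nc θ PP w₀ w₁ vs V₀ p)
    (hN : NV w₀ w₁ θ g δ vs V₀ V₁ (p w₀) (fun l => bet PP c l w₀ w₀) (fun l => bet PP c l w₁ w₁))
    (hs : vs ≤ s₀) (hsθ : s₀ ≤ θ) {h e' b : ℝ} (hh : 0 < h) (hb : 2 * h < b) (he : 0 < e')
    (heb : e' < b) {K : ℕ} (hK : 1 ≤ K)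
    (hbf : b ≤ (vnum w₀ w₁ θ s₀ (fun l => bet PP c l w₀ w₀)
      (fun l => bet PP c l w₁ w₁) (p w₀)).fall)
    (hcon : ∀ c₁ : ℝ, 0 < c₁ → ConS S c (vnum w₀ w₁ θ s₀ (fun l => bet PP c l w₀ w₀)
      (fun l => bet PP c l w₁ w₁) (p w₀)).toNums K h c₁)
    (hhes : ∀ c₁ : ℝ, 0 < c₁ → HesS S c (vnum w₀ w₁ θ s₀ (fun l => bet PP c l w₀ w₀)
      (fun l => bet PP c l w₁ w₁) (p w₀)).toNums (vnum w₀ w₁ θ s₀ (fun l => bet PP c l w₀ w₀)
      (fun l => bet PP c l w₁ w₁) (p w₀)).toNums K K K e' c₁) {c₀ : ℝ} (hc₀ : 0 < c₀) :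
    ShvS S c (vnum w₀ w₁ θ s₀ (fun l => bet PP c l w₀ w₀)
      (fun l => bet PP c l w₁ w₁) (p w₀)) K b c₀ := by
  obtain ⟨b0, hb0⟩ : ∃ b0 : ℕ → ℝ, b0 = fun l => bet PP c l w₀ w₀ := ⟨_, rfl⟩
  obtain ⟨b1, hb1⟩ : ∃ b1 : ℕ → ℝ, b1 = fun l => bet PP c l w₁ w₁ := ⟨_, rfl⟩
  rw [← hb0, ← hb1] at hN hcon hhes hbf ⊢
  have w00 := hN.w00
  have w01 := hN.w01
  have n0 := hN.b00
  have n1 := hN.wb0
  have n4 := hN.b10
  have n5 := hN.wb1
  have n11 := hN.pw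
  have n12 := hN.pb
  have n13 := hN.th
  have n14 := hN.thg
  have n16 := hN.t1'
  have hw1 : w₁ < 1 := by linarith
  have hw0 : w₀ < 1 := by linarith
  have hTm := Pool.CHT.tmH_of_reg hC.mem
  have hm1 : min (b1 2) (1 - 2 * θ) ≤ 1 - 2 * θ := min_le_right _ _
  refine Pool.HSC.shvS (fun τ J F A hS => lt_of_lt_of_le (Real.exp_pos _)
    (hC.mem τ J F A hS).2.2.2) (N := vnum w₀ w₁ θ s₀ b0 b1 (p w₀)) (h := h) (e' := e')
    (hC.wn _) (fun b c₁ hb hc₁ => Pool.PLA.ezs hTm.1 hTm.2 w00.le hw0 hb hc₁) w00.le w01.le hw1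
    ?_ ?_ hh hb he heb hbf ?_ ?_ ?_ ?_ le_rfl hK hcon hhes hc₀
  · show (if (0 : ℕ) = 2 then min (b1 2) (1 - 2 * θ) + θ else b1 0) < 1
    rw [if_neg (by norm_num)]
    linarith
  · show (if (1 : ℕ) = 2 then min (b1 2) (1 - 2 * θ) + θ else b1 1) < 1
    rw [if_neg (by norm_num)]
    linarith
  · show w₀ ≤ (if (0 : ℕ) = 2 then p w₀ else b0 0)
    rw [if_neg (by norm_num)]
    exact n0.ge
  · show (if (1 : ℕ) = 2 then b0 2 + s₀ else b0 1) ≤ (if (1 : ℕ) = 2 then p w₀ else b0 1)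
    rw [if_neg (by norm_num), if_neg (by norm_num)]
  · rw [vnum_fall]
    show w₀ + _ ≤ 1
    linarith
  · rw [vnum_fall]
    show (if (1 : ℕ) = 2 then b0 2 + s₀ else b0 1) + _ ≤ 1
    rw [if_neg (by norm_num)]
    linarith

/-- **The slopes of the sheets are separated.** -/
theorem hv_fls (hC : CV S c al g₀ Nc θ PP w₀ w₁ vs V₀ p)
    (hN : NV w₀ w₁ θ g δ vs V₀ V₁ (p w₀) (fun l => bet PP c l w₀ w₀) (fun l => bet PP c l w₁ w₁))
    (hs : vs ≤ s₀) (hsθ : s₀ ≤ θ) {e : ℝ}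
    (hH2 : H2S S w₀ w₁ e) (he : 0 ≤ e) {q : ℚ} {b : ℝ} (hq : 0 < q) (hqb : (q : ℝ) ≤ b)
    (hb : 0 < b) (hN' : 2 * e < Nc 0 q * Real.log 2) {K : ℕ}
    (hbf : 11 * b ≤ (vnum w₀ w₁ θ s₀ (fun l => bet PP c l w₀ w₀)
      (fun l => bet PP c l w₁ w₁) (p w₀)).fall) {c₀ : ℝ} (hc₀ : 0 < c₀) :
    FlsS S c (vnum w₀ w₁ θ s₀ (fun l => bet PP c l w₀ w₀)
      (fun l => bet PP c l w₁ w₁) (p w₀)) K b (11 * b) c₀ := by
  obtain ⟨b0, hb0⟩ : ∃ b0 : ℕ → ℝ, b0 = fun l => bet PP c l w₀ w₀ := ⟨_, rfl⟩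
  obtain ⟨b1, hb1⟩ : ∃ b1 : ℕ → ℝ, b1 = fun l => bet PP c l w₁ w₁ := ⟨_, rfl⟩
  rw [← hb0, ← hb1] at hN hbf ⊢
  have w00 := hN.w00
  have w01 := hN.w01
  have n0 := hN.b00
  have n1 := hN.wb0
  have n4 := hN.b10
  have n5 := hN.wb1
  have n11 := hN.pw
  have n12 := hN.pb
  have n13 := hN.th
  have n14 := hN.thg
  have n15 := hN.t1
  have n16 := hN.t1'
  have n17 := hN.t2
  have n18 := hN.dl
  have n19 := hN.vs0
  have hw1 : w₁ < 1 := by linarith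
  have hw0 : w₀ < 1 := by linarith
  have hm1 : min (b1 2) (1 - 2 * θ) ≤ 1 - 2 * θ := min_le_right _ _
  have hfl := vnum_fall (w₀ := w₀) (w₁ := w₁) (θ := θ) (s₀ := s₀) b0 b1 (p w₀)
  rw [hfl] at hbf
  refine Pool.PMF.flsS (VN := vnum w₀ w₁ θ s₀ b0 b1 (p w₀)) (N := Nc) (h₀ := b) (e := e) (q := q)
    (show w₀ ≤ 1 by linarith) hC.pos hH2 he hC.actb hq
    (by exact_mod_cast (show (q : ℝ) ≤ 1 by linarith)) hN' ?_ hb.le ?_ hb (by linarith) ?_ ?_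
    (fun i hi => ?_) ?_ hc₀
  · show 0 ≤ (if (2 : ℕ) = 2 then p w₀ else b0 2)
    rw [if_pos rfl]
    linarith
  · show w₀ < (if (0 : ℕ) = 2 then p w₀ else b0 0) + b
    rw [if_neg (by norm_num)]
    linarith
  · rw [hfl]
    linarith
  · show (if (2 : ℕ) = 2 then p w₀ else b0 2) + b < 1
    rw [if_pos rfl]
    linarith
  · rw [hfl]
    show (if i = 2 then p w₀ else b0 i) + _ < 1 + b
    rw [if_neg (by omega)]
    rcases (show i = 0 ∨ i = 1 by omega) with rfl | rfl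
    · linarith
    · linarith
  · show Bas S (fun J F A => ∀ P : ℕ, ((if (2 : ℕ) = 2 then p w₀ else b0 2) + b) * J ≤ P → P ≤ J →
      ¬ Pool.PM26.Afl F c 2 ⌊w₀ * J⌋₊ P A)
    rw [if_pos rfl]
    exact hC.af.non hC.cp w00.le hw0 b hb

end parts

end Pool.HV57
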