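import Pool.Agent.H45.EXA.Exv

/-!
# Lower bounds for the thresholds of chains in an order which is not greedy

`vs_le_bet2`: the number of the coordinate `c 2` over `c 0` is at most the threshold of the chains
of `c 0, c 1, c 2`, in every order of the last two coordinates.
-/

set_option autoImplicit false

namespace Pool.HV57

open Finset Real MvPolynomial
open Pool.Agent.H49.Ent Pool.Agent.H32.Dense Pool.STK Pool.BFL Pool.KA Pool.KSAT Pool.K2S Pool.PB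
open Pool.GEN Pool.S6C Pool.CHT Pool.GRW
open Pool.LBT (LSys Slo Tri ThrOf)

variable {m J : ℕ}

theorem img_zero2 {m : ℕ} (ε : Fin 2 → Fin m) : (Iio (0 : Fin 2)).image ε = ∅ := by
  rw [Finset.image_eq_empty]
  ext x
  simp

theorem img_one2 {m : ℕ} (ε : Fin 2 → Fin m) : (Iio (1 : Fin 2)).image ε = {ε 0} := by
  ext x
  simp only [Finset.mem_image, Finset.mem_Iio, Finset.mem_singleton]
  constructor
  · rintro ⟨i, hi, rfl⟩
    have h2 : i = 0 := by omega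
    rw [h2]
  · rintro rfl
    exact ⟨0, by decide, rfl⟩

/-- **The number of the last coordinate over the first one** is at most the threshold of the
chains, at all larger windows. -/
theorem vs_le_thr2 {θ : ℝ} (hθ : 0 < θ) {S : PCl m} (hS : S.Ne) {C₀ : ℝ} (htm : TmC S C₀)
    (hpos : Bas S (fun _ F A => 0 < Pe F.p A)) {L : Finset (Fin m) → Fin m → ℝ → ℝ → ℝ}
    (hL : LamW S L) {P : List (Fin m) × Fin m → ℝ → ℝ → ℝ} (hP : ThrOf (chsys m θ) S P)
    {c : ℕ → Fin m} (hc : Set.InjOn c (Set.Iio 3)) {ε₁ ε₂ : Fin 2 → Fin m} (h10 : ε₁ 0 = c 0)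
    (h11 : ε₁ 1 = c 1) (h20 : ε₂ 0 = c 0) (h21 : ε₂ 1 = c 2) {w : ℝ} (hw : w ∈ Wv L ε₁)
    (hw2 : w ∈ Wv L ε₂) (hex : VExa S L ε₁ w) (hlt : vs L ε₁ w 1 < 1)
    (h22 : vs L ε₂ w 1 = vs L ε₁ w 1) {w' : ℝ} (hww : w < w') (hw' : w' ≤ 1) :
    vs L ε₂ w 2 ≤ P ((List.range 2).map c, c 2) w' w' := by
  classical
  obtain ⟨hw0, hw1, hg, hct⟩ := hw
  obtain ⟨-, -, hg2, hct2⟩ := hw2
  by_contra hcon
  push Not at hcon
  obtain ⟨p, hp⟩ : ∃ p, p = P ((List.range 2).map c, c 2) w' w' := ⟨_, rfl⟩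
  rw [← hp] at hcon
  obtain ⟨h, hh⟩ : ∃ h, h = (vs L ε₂ w 2 - p) / 2 := ⟨_, rfl⟩
  have hh0 : 0 < h := by rw [hh]; linarith
  have hs1 : ∀ l, vs L ε₁ w l ≤ 1 := vs_le1 hL ε₁ hw1.le
  have hs0 : ∀ l, w ≤ vs L ε₁ w l := le_vs hL ε₁ hw1.le
  have hs1' : ∀ l, vs L ε₂ w l ≤ 1 := vs_le1 hL ε₂ hw1.le
  have hs0' : ∀ l, w ≤ vs L ε₂ w l := le_vs hL ε₂ hw1.le
  obtain ⟨δ, hδ⟩ : ∃ δ, δ = min h (θ * w / 2) := ⟨_, rfl⟩
  have hθw : 0 < θ * w := mul_pos hθ hw0
  have hδ0 : 0 < δ := by rw [hδ]; exact lt_min hh0 (by linarith)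
  have hδh : δ ≤ h := by rw [hδ]; exact min_le_left _ _
  have hδθ : δ < θ * w := by
    have : δ ≤ θ * w / 2 := by rw [hδ]; exact min_le_right _ _
    linarith
  obtain ⟨s, hs⟩ : ∃ s : ℕ → ℝ, s = fun i => if i < 2 then vs L ε₁ w (i + 1) else vs L ε₂ w 2 :=
    ⟨_, rfl⟩
  have hsl : ∀ l < 2, s l = vs L ε₁ w (l + 1) := fun l hl => by
    rw [hs]
    exact if_pos hl
  have hs2 : s 2 = vs L ε₂ w 2 := by
    rw [hs]
    exact if_neg (lt_irrefl 2)
  have hcε : ∀ i : Fin 2, c i = ε₁ i := by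
    intro i
    fin_cases i
    · exact h10.symm
    · exact h11.symm
  have hs01 : ∀ i < 3, 0 ≤ s i ∧ s i ≤ 1 := fun i hi => by
    rcases Nat.lt_or_ge i 2 with h3 | h3
    · rw [hsl i h3]
      exact ⟨hw0.le.trans (hs0 _), hs1 _⟩
    · rw [show i = 2 by omega, hs2]
      exact ⟨hw0.le.trans (hs0' _), hs1' _⟩
  obtain ⟨K, d, hKd, hB⟩ := chn_of htm (c := c) (r := 3) (w := w) (s := s) (b := fun i => min i 1)
    hc hw0.le hw1 (fun i => min_le_left _ _) (fun i hi => (hs01 i hi).1)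
    (fun i _ l hl => by
      have hl' : l = 0 := by
        have h3 := lt_of_lt_of_le hl (min_le_right i 1)
        omega
      rw [hl', hsl 0 (by norm_num)]
      exact hlt)
    (fun ρ hρ => by
      refine (vst_crd hpos hL hcε hw0 hw1 hg hct hex hρ).mono 0 ?_
      intro J _ F A h1 V z z' hz i _ l hl
      have hl' : l = 0 := by
        have h3 := lt_of_lt_of_le hl (min_le_right i 1)
        omega
      have h2 := h1 V z z' hz l (by omega)
      rw [hsl l (by omega)]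
      exact h2)
    (rd := fun i => if i = 0 then w else vs L ε₁ w 1)
    (fun i hi e he => by
      have hi' : i = 0 ∨ i = 1 ∨ i = 2 := by omega
      rcases hi' with rfl | rfl | rfl
      · obtain ⟨K, hK⟩ := vst_att1 hL hw0 hw1 hg hct 0 0 rfl 0 le_rfl e he
        refine ⟨K, hK.mono 0 fun J _ F A h1 => ?_⟩
        rw [img_zero2, h10] at h1
        rw [hsl 0 (by norm_num)]
        exact h1
      · obtain ⟨K, hK⟩ := vst_att1 hL hw0 hw1 hg hct 1 1 rfl 1 le_rfl e he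
        refine ⟨K, hK.mono 0 fun J _ F A h1 => ?_⟩
        rw [img_one2, h10, h11] at h1
        rw [hsl 1 (by norm_num)]
        exact h1
      · obtain ⟨K, hK⟩ := vst_att1 hL hw0 hw1 hg2 hct2 1 1 rfl 1 le_rfl e he
        refine ⟨K, hK.mono 0 fun J _ F A h1 => ?_⟩
        rw [img_one2, h20, h21] at h1
        rw [hs2]
        have h22' : vs L ε₂ w ((1 : Fin 2) : ℕ) = vs L ε₁ w 1 := h22
        rw [h22'] at h1
        exact h1)
    (φ := fun _ => 1) (fun _ => one_pos) hδ0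
  -- the chain labels
  obtain ⟨K₁, J₁, hK₁⟩ := le_lipE' hw0.le hδθ
  obtain ⟨K₀, hK₀⟩ : ∃ K₀, K₀ = max K₁ ((range 3).sup K) := ⟨_, rfl⟩
  have hph : p + h ≤ 1 := by
    have := hs1' 2
    rw [hh]
    linarith
  have hno := bas_half (hP.no' ((List.range 2).map c, c 2) K₀ (h := h) hw0.le le_rfl hww hww le_rfl
    hw' hh0 (by rw [← hp]; exact hph))
  refine Clp.not_false hS (Bas.clp ((hB.and hno).mono J₁ ?_))
  rintro J hJ F A ⟨⟨B, hBA, hPe, hch⟩, h2⟩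
  refine h2 B hBA hPe ?_
  have hJ0 : (0 : ℝ) ≤ J := Nat.cast_nonneg J
  have hT := Cht.of_chN (θ := θ) (P := ⌊(p + h) * J⌋₊) (K₀ := K₀) (a := ⌊w * J⌋₊) (w := ⌊w * J⌋₊)
    hch le_rfl le_rfl le_rfl ?_ ?_ ?_ ?_
  · rw [hp] at hT
    exact hT
  · refine Nat.add_le_add_right (Nat.floor_le_floor (mul_le_mul_of_nonneg_right ?_ hJ0)) _
    have h3 := (hKd 2 (by norm_num)).2.1
    have h4 : vs L ε₂ w 2 = p + 2 * h := by rw [hh]; ring
    rw [hs2]
    linarith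
  · intro l hl
    rw [hK₀]
    exact (Finset.le_sup (f := K) (mem_range.2 hl)).trans (le_max_right _ _)
  · exact hK₁ K₀ (by rw [hK₀]; exact le_max_left _ _) J hJ
  · intro l hl
    refine Pool.LBT.fl_le' ?_ J
    have h3 := (hKd l (by omega)).1
    have h4 := (hs01 l (by omega)).2
    linarith

/-- **The number of the last coordinate over the first one** is at most the threshold of the
chains. -/
theorem vs_le_bet2 {θ : ℝ} (hθ : 0 < θ) {S : PCl m} (hS : S.Ne) {C₀ : ℝ} (htm : TmC S C₀)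
    (hpos : Bas S (fun _ F A => 0 < Pe F.p A)) {L : Finset (Fin m) → Fin m → ℝ → ℝ → ℝ}
    (hL : LamW S L) {P : List (Fin m) × Fin m → ℝ → ℝ → ℝ} (hP : ThrOf (chsys m θ) S P)
    {c : ℕ → Fin m} (hc : Set.InjOn c (Set.Iio 3)) {ε₁ ε₂ : Fin 2 → Fin m} (h10 : ε₁ 0 = c 0)
    (h11 : ε₁ 1 = c 1) (h20 : ε₂ 0 = c 0) (h21 : ε₂ 1 = c 2) {w : ℝ} (hw : w ∈ Wv L ε₁)
    (hw2 : w ∈ Wv L ε₂) (hex : VExa S L ε₁ w) (hlt : vs L ε₁ w 1 < 1)
    (h22 : vs L ε₂ w 1 = vs L ε₁ w 1) (hcon : ∀ l, ContinuousAt (dg P l) w) :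
    vs L ε₂ w 2 ≤ bet P c 2 w w := by
  have hw0 := hw.1
  have hw1 := hw.2.1
  refine le_of_forall_pos_le_add fun e he => ?_
  have h1 := hcon ((List.range 2).map c, c 2)
  rw [Metric.continuousAt_iff] at h1
  obtain ⟨δ, hδ, h2⟩ := h1 e he
  obtain ⟨w', hw'⟩ : ∃ w', w' = min (w + δ / 2) 1 := ⟨_, rfl⟩
  have hww : w < w' := by rw [hw']; exact lt_min (by linarith) hw1
  have hw'1 : w' ≤ 1 := by rw [hw']; exact min_le_right _ _
  have hw'2 : w' ≤ w + δ / 2 := by rw [hw']; exact min_le_left _ _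
  have h3 := @h2 w' (by rw [Real.dist_eq, abs_lt]; constructor <;> linarith)
  rw [Real.dist_eq, dg_eq P _ (hw0.le.trans hww.le) hw'1, dg_eq P _ hw0.le hw1.le] at h3
  have h4 := vs_le_thr2 hθ hS htm hpos hL hP hc h10 h11 h20 h21 hw hw2 hex hlt h22 hww hw'1
  have h5 := (abs_lt.1 h3).2
  have h6 : bet P c 2 w w = P ((List.range 2).map c, c 2) w w := rfl
  rw [h6]
  linarith

end Pool.HV57
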