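import Pool.Agent.H69.NJ.Pk

/-!
# The numbers of the orders at two windows, in dimension four

`nu k w`: the number of the coordinate `k` over the active one. `vol3`: the volume in the order of
the window. `vol_ge`: the number of the last coordinate of another order is at least its number over
the active coordinate.
-/

set_option autoImplicit false

namespace Pool.HV57

open Finset Real
open Pool.Agent.H49.Ent Pool.Agent.H32.Dense Pool.STK Pool.KA Pool.KSAT Pool.K2S Pool.PB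
open Pool.GEN Pool.S6C Pool.GRW Pool.PKG Pool.R1
open Pool.CHT (chsys bet)
open Pool.LBT (ThrOf)
open Pool.ONE (lst)

theorem img0' {m k : ℕ} (hk : 0 < k) (ε : Fin k → Fin m) :
    (Finset.Iio (⟨0, hk⟩ : Fin k)).image ε = ∅ := Pool.NJ69.img0 hk ε

theorem img2' {m k : ℕ} (hk : 2 < k) (ε : Fin k → Fin m) :
    (Finset.Iio (⟨2, hk⟩ : Fin k)).image ε = {ε ⟨0, by omega⟩, ε ⟨1, by omega⟩} := by
  ext x
  simp only [Finset.mem_image, Finset.mem_Iio, Finset.mem_insert, Finset.mem_singleton, Fin.lt_def]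
  constructor
  · rintro ⟨i, hi, rfl⟩
    have h1 : (i : ℕ) < 2 := hi
    rcases (show (i : ℕ) = 0 ∨ (i : ℕ) = 1 by omega) with h2 | h2
    · left
      have h3 : i = ⟨0, by omega⟩ := Fin.ext h2
      rw [h3]
    · right
      have h3 : i = ⟨1, by omega⟩ := Fin.ext h2
      rw [h3]
  · rintro (rfl | rfl)
    · exact ⟨⟨0, by omega⟩, show 0 < 2 by norm_num, rfl⟩
    · exact ⟨⟨1, by omega⟩, show 1 < 2 by norm_num, rfl⟩

theorem vs_three {m k : ℕ} (hk : 2 < k) (L : Finset (Fin m) → Fin m → ℝ → ℝ → ℝ)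
    (ε : Fin k → Fin m) (w : ℝ) : vs L ε w 3 =
      L {ε ⟨0, by omega⟩, ε ⟨1, by omega⟩} (ε ⟨2, hk⟩) w (vs L ε w 2) := by
  rw [vs, dif_pos hk, img2' hk]

section pk

variable {hn : 2 ≤ 4} {S : PCl 4} {P : ℝ → ℝ → ℝ} {r : ℝ → ℝ}
  {P' : ℕ → List (Fin 4) × Fin 4 → ℝ → ℝ → ℝ} {Λ : Finset (Fin 4) → Fin 4 → ℝ → ℝ → ℝ}

theorem cc0 (hn : 2 ≤ 4) {σ : Equiv.Perm (Fin (4 - 1))} (hσ : σ ∈ Og 4) : cc hn σ 0 = 0 := by
  rw [cc_lt hn σ (show 0 < 4 - 1 by norm_num)]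
  exact Fin.ext (hσ _ rfl)

theorem cc_ne0 (hn : 2 ≤ 4) {σ : Equiv.Perm (Fin (4 - 1))} (hσ : σ ∈ Og 4) {i : ℕ} (h0 : i ≠ 0)
    (hi : i < 3) : cc hn σ i ≠ 0 := by
  intro h
  rw [← cc0 hn hσ] at h
  exact h0 (cc_inj' hn σ (by omega) (by omega) h)

/-- Two orders. -/
theorem cc_two (hn : 2 ≤ 4) {σ σ' : Equiv.Perm (Fin (4 - 1))} (hσ : σ ∈ Og 4) (hσ' : σ' ∈ Og 4) :
    (cc hn σ' 1 = cc hn σ 1 ∧ cc hn σ' 2 = cc hn σ 2) ∨
      (cc hn σ' 1 = cc hn σ 2 ∧ cc hn σ' 2 = cc hn σ 1) := by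
  have a0 := cc_ne0 hn hσ (i := 1) (by norm_num) (by norm_num)
  have a1 := cc_ne0 hn hσ (i := 2) (by norm_num) (by norm_num)
  have a2 := cc_ne0 hn hσ' (i := 1) (by norm_num) (by norm_num)
  have a3 := cc_ne0 hn hσ' (i := 2) (by norm_num) (by norm_num)
  have b0 : cc hn σ 1 ≠ cc hn σ 2 := fun h => absurd (cc_inj' hn σ (by norm_num) (by norm_num) h)
    (by norm_num)
  have b1 : cc hn σ' 1 ≠ cc hn σ' 2 := fun h =>
    absurd (cc_inj' hn σ' (by norm_num) (by norm_num) h) (by norm_num)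
  have c1 := cc_ne hn σ (j := 1) (by norm_num)
  have c2 := cc_ne hn σ (j := 2) (by norm_num)
  have c3 := cc_ne hn σ' (j := 1) (by norm_num)
  have c4 := cc_ne hn σ' (j := 2) (by norm_num)
  have hl : lst hn = 3 := rfl
  rw [hl] at c1 c2 c3 c4
  generalize cc hn σ 1 = x at *
  generalize cc hn σ 2 = y at *
  generalize cc hn σ' 1 = x' at *
  generalize cc hn σ' 2 = y' at *
  revert a0 a1 a2 a3 b0 b1 c1 c2 c3 c4
  revert x y x' y'
  decide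

/-- The order of a window: the numbers. -/
theorem vs_cc (H : Pk hn S P r P' Λ) {σ : Equiv.Perm (Fin (4 - 1))} (hσ : σ ∈ Og 4) {w : ℝ}
    (h0 : 0 ≤ w) (h1 : w < 1) :
    vs Λ (fun i => bse (σ i)) w 1 = w ∧
    vs Λ (fun i => bse (σ i)) w 2 = Λ {0} (cc hn σ 1) w w ∧
    vs Λ (fun i => bse (σ i)) w 3 =
      Λ {0, cc hn σ 1} (cc hn σ 2) w (Λ {0} (cc hn σ 1) w w) := by
  obtain ⟨al, g₀, s, d, e, K₀, N, hal, hg₀, hC⟩ := H.cl
  have e0 : bse (σ ⟨0, by norm_num⟩) = (0 : Fin 4) := by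
    rw [← cc_lt hn σ (show 0 < 4 - 1 by norm_num)]
    exact cc0 hn hσ
  have e1 : bse (σ ⟨1, by norm_num⟩) = cc hn σ 1 := (cc_lt hn σ (by norm_num)).symm
  have e2 : bse (σ ⟨2, by norm_num⟩) = cc hn σ 2 := (cc_lt hn σ (by norm_num)).symm
  have v1 : vs Λ (fun i => bse (σ i)) w 1 = w := by
    rw [Pool.NJ69.vs_one (show 0 < 4 - 1 by norm_num), e0]
    exact H.lam.act hC.ne hal (hC.actm.q hg₀) (hC.actb _ rfl) H.pos h0 h1
  have v2 : vs Λ (fun i => bse (σ i)) w 2 = Λ {0} (cc hn σ 1) w w := by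
    have h2 := Pool.NJ69.vs_two (show 1 < 4 - 1 by norm_num) Λ (fun i => bse (σ i)) w
    have h3 := Pool.NJ69.vs_one (show 0 < 4 - 1 by norm_num) Λ (fun i => bse (σ i)) w
    rw [v1] at h3
    rw [h2, ← h3]
    simp only [e0, e1]
  refine ⟨v1, v2, ?_⟩
  rw [vs_three (show 2 < 4 - 1 by norm_num), v2]
  simp only [e0, e1, e2]

theorem vol3 (H : Pk hn S P r P' Λ) {w : ℝ} (hw : Gwd P P' Λ w) :
    vol Λ w = w + Λ {0} (cc hn (ow Λ w) 1) w w + vs Λ (fun i => bse (ow Λ w i)) w 3 := by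
  obtain ⟨v1, v2, -⟩ := vs_cc H hw.ow.1 hw.pos.le hw.lt
  unfold vol
  have h3 : ∑ j : Fin (4 - 1), vs Λ (fun i => bse (ow Λ w i)) w (j + 1) =
      ∑ j : Fin 3, vs Λ (fun i => bse (ow Λ w i)) w (j + 1) := rfl
  rw [h3, Fin.sum_univ_three]
  change vs Λ (fun i => bse (ow Λ w i)) w 1 + vs Λ (fun i => bse (ow Λ w i)) w 2 +
    vs Λ (fun i => bse (ow Λ w i)) w 3 = _
  rw [v1, v2]

/-- **The numbers in another order.** -/
theorem vol_ge (H : Pk hn S P r P' Λ) {w : ℝ} (hw : Gwd P P' Λ w)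
    {σ : Equiv.Perm (Fin (4 - 1))} (hσ : σ ∈ Og 4) :
    Λ {0} (cc hn σ 2) w w ≤ vol Λ w - w - Λ {0} (cc hn σ 1) w w := by
  obtain ⟨v1, v2, v3⟩ := vs_cc H hw.ow.1 hw.pos.le hw.lt
  have h1 := vol3 H hw
  have hlow : ∀ k : Fin 4, w ≤ Λ {0} k w w := fun k => H.lam.low _ _ _ _ hw.lt.le
  have hmon : ∀ k k' : Fin 4, Λ {0} k w w ≤ Λ {0, k'} k w (Λ {0} k' w w) := fun k k' =>
    H.lam.mono _ _ _ _ _ _ _ (by
      intro x hx
      rw [Finset.mem_singleton] at hx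
      rw [hx]
      exact Finset.mem_insert_self _ _) le_rfl (hlow k')
  rcases cc_two hn hσ hw.ow.1 with ⟨h2, h3⟩ | ⟨h2, h3⟩
  · rw [v3, h2, h3] at h1
    have := hmon (cc hn σ 2) (cc hn σ 1)
    linarith
  · rw [v3, h2, h3] at h1
    have := hmon (cc hn σ 1) (cc hn σ 2)
    linarith

/-- **The order is greedy.** -/
theorem gr_cc (H : Pk hn S P r P' Λ) {w : ℝ} (hw : Gwd P P' Λ w) :
    w ≤ Λ {0} (cc hn (ow Λ w) 1) w w ∧
    Λ {0} (cc hn (ow Λ w) 1) w w ≤ Λ {0} (cc hn (ow Λ w) 2) w w ∧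
    Λ {0} (cc hn (ow Λ w) 1) w w ≤ vs Λ (fun i => bse (ow Λ w i)) w 3 := by
  obtain ⟨v1, v2, v3⟩ := vs_cc H hw.ow.1 hw.pos.le hw.lt
  refine ⟨H.lam.low _ _ _ _ hw.lt.le, ?_, ?_⟩
  · have h1 := hw.ow.2.2.2.1 ⟨1, by norm_num⟩ ⟨2, by norm_num⟩ (by rw [Fin.le_def]; norm_num)
    have h2 : vs Λ (fun i => bse (ow Λ w i)) w ((⟨1, by norm_num⟩ : Fin (4 - 1)) + 1) =
      vs Λ (fun i => bse (ow Λ w i)) w 2 := rfl
    rw [h2, v2] at h1
    refine h1.trans (le_of_eq ?_)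
    have h3 := congrFun (Pool.NJ69.vn_one (show 1 < 4 - 1 by norm_num) Λ
      (fun i => bse (ow Λ w i)) (bse (ow Λ w ⟨2, by norm_num⟩))) w
    have h4 := Pool.NJ69.vs_one (show 0 < 4 - 1 by norm_num) Λ (fun i => bse (ow Λ w i)) w
    rw [v1] at h4
    rw [← h4] at h3
    have e0 : bse (ow Λ w ⟨0, by norm_num⟩) = (0 : Fin 4) := by
      rw [← cc_lt hn (ow Λ w) (show 0 < 4 - 1 by norm_num)]
      exact cc0 hn hw.ow.1
    have e2 : bse (ow Λ w ⟨2, by norm_num⟩) = cc hn (ow Λ w) 2 := (cc_lt hn _ (by norm_num)).symm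
    simp only [e0, e2] at h3
    rw [← h3]
    exact congrArg (fun z => vn Λ (fun i => bse (ow Λ w i)) ⟨1, by norm_num⟩ z w) e2
  · have h1 := hw.ow.2.2.2.1.mono H.lam hw.lt.le (show 2 ≤ 3 by norm_num)
    rwa [v2] at h1

end pk

end Pool.HV57
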