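import Pool.Agent.H57.HV.Cab
import Pool.Agent.H57.HV.Lbt
import Pool.Agent.H57.HV.Num4
import Pool.Agent.H96.R1.Twc

/-!
# The thresholds at one window, in an order which is not greedy

`bet0`, `bet1`: the thresholds of the chains of the first two coordinates of an order which begins
with the active coordinate. `bet2_ge`, `bet2_le`: bounds for the threshold of the third one.
-/

set_option autoImplicit false

namespace Pool.HV57

open Finset Real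
open Pool.Agent.H49.Ent Pool.Agent.H32.Dense Pool.KA Pool.KSAT Pool.K2S Pool.PB
open Pool.STK hiding pr2
open Pool.GEN Pool.S6C Pool.GRW Pool.PKG Pool.R1
open Pool.CHT (chsys bet)
open Pool.LBT (ThrOf)
open Pool.ONE (lst)
open Pool.NJ69 (pr2 pr2_zero pr2_one wv_pair)
open Pool.UNJ (ceI)
open Pool.M3F (ExvY)

/-- **Fullness of the last of three coordinates**, in any order. -/
theorem crd3 {m : ℕ} {S : PCl m} (hpos : Bas S (fun _ F A => 0 < Pe F.p A)) {c : ℕ → Fin m}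
    {w n0 n1 V : ℝ} (hn0 : n0 ≤ 1) (hn1 : n1 ≤ 1) {r0 r1 : ℝ → ℝ}
    (hr0 : ∀ e, r0 e ≤ 1) (hr1 : ∀ e, r1 e ≤ 1)
    (h0 : ∀ e : ℝ, 0 < e → ∃ K, Bas S (fun J F A => Lb F ∅ (c 0) K ⌊e * J⌋₊ J ⌊w * J⌋₊
      ⌊r0 e * J⌋₊ ⌊(n0 - e) * J⌋₊ A))
    (h1 : ∀ e : ℝ, 0 < e → ∃ K, Bas S (fun J F A => Lb F {c 0} (c 1) K ⌊e * J⌋₊ J ⌊w * J⌋₊
      ⌊r1 e * J⌋₊ ⌊(n1 - e) * J⌋₊ A))
    (h2 : ∀ e : ℝ, 0 < e → ∃ K, ∃ r2 q2 : ℝ, r2 ≤ 1 ∧ q2 ≤ 1 ∧ Bas S (fun J F A =>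
      Lb F {c 0, c 1} (c 2) K ⌊e * J⌋₊ J ⌊w * J⌋₊ ⌊r2 * J⌋₊ ⌊q2 * J⌋₊ A))
    (hw : w ≤ 1)
    (hex : ∀ ρ : ℝ, 0 < ρ → ExvY S w (fun J F ω (i : Fin 3) => F.X J ω (c i)) ((3 - V) - ρ))
    {ρ : ℝ} (hρ : 0 < ρ) :
    Bas S (fun J F A => ∀ (V' : Type) (z : PtT F → V') (z' : LnT F → V'),
      (∀ ω, A ω → z (ptr F J ω) = z' (slam F ⌊w * J⌋₊ ω)) →
      ((1 - (V - n0 - n1)) - ρ) * Real.log 2 * J ≤ CH (Pool.Agent.H49.Ent.cond F.p A True)
        (fun ω => F.X J ω (c 2)) (fun ω => ((fun l : Fin 2 => F.X J ω (c l)),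
          z' (slam F ⌊w * J⌋₊ ω), F.W ω))) := by
  classical
  have hl0 : 0 < Real.log 2 := Real.log_pos one_lt_two
  have hl1 : Real.log 2 ≤ 1 := by
    have := Real.log_two_lt_d9
    linarith
  have hl2 : 1 / 2 ≤ Real.log 2 := by
    have := Real.log_two_gt_d9
    linarith
  obtain ⟨e, he⟩ : ∃ e : ℝ, e = ρ / 16 := ⟨_, rfl⟩
  have he0 : 0 < e := by rw [he]; positivity
  obtain ⟨K₀, hK₀⟩ := h0 e he0
  obtain ⟨K₁, hK₁⟩ := h1 e he0
  obtain ⟨K₂, r2, q2, hr2, hq2, hK₂⟩ := h2 e he0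
  obtain ⟨K, hK⟩ : ∃ K, K = max K₀ (max K₁ K₂) := ⟨_, rfl⟩
  have k0 : K₀ ≤ K := by rw [hK]; exact le_max_left _ _
  have k1 : K₁ ≤ K := by rw [hK]; exact (le_max_left _ _).trans (le_max_right _ _)
  have k2 : K₂ ≤ K := by rw [hK]; exact (le_max_right _ _).trans (le_max_right _ _)
  obtain ⟨D, hD⟩ : ∃ D, D = 2 * (1 + Real.log (2 * m + 9)) := ⟨_, rfl⟩
  obtain ⟨J₂, hJ₂⟩ := exists_nat_ge (D / (ρ / 16))
  refine ((hex (ρ / 4) (by linarith)).and (hK₀.and (hK₁.and (hK₂.and hpos)))).mono J₂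
    fun J hJ F A h V' z z' hz => ?_
  obtain ⟨g1, g2, g3, g4, g5⟩ := h
  have hJ0 : (0 : ℝ) ≤ J := Nat.cast_nonneg J
  have hJ2 : (J₂ : ℝ) ≤ J := by exact_mod_cast hJ
  have hD1 : D ≤ ρ / 16 * J := by
    have := hJ₂.trans hJ2
    rw [div_le_iff₀ (by linarith)] at this
    linarith
  have hwJ : ⌊w * J⌋₊ ≤ J := fl_le hw J
  have i0 : (Iio (0 : Fin 3)).image (fun i : Fin 3 => c i) = ∅ := by
    rw [Finset.image_eq_empty]
    ext x
    simp
  have i1 : (Iio (1 : Fin 3)).image (fun i : Fin 3 => c i) = {c 0} := by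
    have : Iio (1 : Fin 3) = {0} := by decide
    rw [this, Finset.image_singleton]
    rfl
  have i2 : (Iio (2 : Fin 3)).image (fun i : Fin 3 => c i) = {c 0, c 1} := by
    have : Iio (2 : Fin 3) = {0, 1} := by decide
    rw [this, Finset.image_insert, Finset.image_singleton]
    rfl
  have h4 := crd_fam g5 (ε := fun i : Fin 3 => c i) (K := K) (e := ⌊e * J⌋₊) (w := ⌊w * J⌋₊)
    (ρ := ![⌊r0 e * J⌋₊, ⌊r1 e * J⌋₊, ⌊r2 * J⌋₊])
    (P := ![⌊(n0 - e) * J⌋₊, ⌊(n1 - e) * J⌋₊, ⌊q2 * J⌋₊]) (fun j => by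
      fin_cases j
      · rw [show ((⟨0, by norm_num⟩ : Fin 3)) = 0 from rfl]
        simp only [i0]
        exact g2.mono (Finset.Subset.refl _) k0 le_rfl le_rfl le_rfl hwJ le_rfl le_rfl
      · rw [show ((⟨1, by norm_num⟩ : Fin 3)) = 1 from rfl]
        simp only [i1]
        exact g3.mono (Finset.Subset.refl _) k1 le_rfl le_rfl le_rfl hwJ le_rfl le_rfl
      · rw [show ((⟨2, by norm_num⟩ : Fin 3)) = 2 from rfl]
        simp only [i2]
        exact g4.mono (Finset.Subset.refl _) k2 le_rfl le_rfl le_rfl hwJ le_rfl le_rfl)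
    (fun j => by
      fin_cases j
      · exact fl_le (hr0 e) J
      · exact fl_le (hr1 e) J
      · exact fl_le hr2 J)
    (fun j => by
      fin_cases j
      · exact fl_le (by linarith) J
      · exact fl_le (by linarith) J
      · exact fl_le hq2 J)
    g1 V' z z' hz 2
  have e2 : univ.erase (2 : Fin 3) = {0, 1} := by decide
  rw [e2, Finset.sum_insert (by decide), Finset.sum_singleton] at h4
  simp only [Matrix.cons_val_zero, Matrix.cons_val_one] at h4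
  have h5 : (fun ω => ((fun l : Fin 2 => F.X J ω (c l)), z' (slam F ⌊w * J⌋₊ ω), F.W ω)) =
      fun ω => ((fun l : Fin ((2 : Fin 3) : ℕ) => F.X J ω (c l)), z' (slam F ⌊w * J⌋₊ ω), F.W ω) :=
    rfl
  refine le_trans ?_ h4
  have hlog : 0 ≤ Real.log (2 * (m : ℝ) + 9) := Real.log_nonneg (by
    have : (0 : ℝ) ≤ m := Nat.cast_nonneg m
    linarith)
  have h6 : ∀ n' : ℝ, ((J : ℝ) - (⌊(n' - e) * J⌋₊ : ℕ) + (⌊e * J⌋₊ : ℕ)) * Real.log 2 +
      Real.log (2 * m + 9) ≤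
      (1 - n') * Real.log 2 * J + (2 * e * J + (1 + Real.log (2 * m + 9))) := by
    intro n'
    have k1 := Nat.lt_floor_add_one ((n' - e) * (J : ℝ))
    have k2 := Nat.floor_le (show 0 ≤ e * (J : ℝ) by positivity)
    have k3 : ((J : ℝ) - (⌊(n' - e) * J⌋₊ : ℕ) + (⌊e * J⌋₊ : ℕ)) ≤
        (1 - n') * J + (2 * e * J + 1) := by linarith
    have k4 := mul_le_mul_of_nonneg_right k3 hl0.le
    have k5 : (2 * e * J + 1) * Real.log 2 ≤ (2 * e * J + 1) * 1 :=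
      mul_le_mul_of_nonneg_left hl1 (by positivity)
    nlinarith
  have q0 := h6 n0
  have q1 := h6 n1
  have q3 : ρ / 2 * J ≤ ρ * Real.log 2 * J := by
    have := mul_le_mul_of_nonneg_left hl2 (show 0 ≤ ρ * J by positivity)
    nlinarith
  have q4 : ρ / 4 * Real.log 2 * J ≤ ρ / 4 * J := by
    have := mul_le_mul_of_nonneg_left hl1 (show 0 ≤ ρ / 4 * J by positivity)
    nlinarith
  have q5 : 4 * e * J = ρ / 4 * J := by rw [he]; ring
  have q6 : ρ * J ≥ 0 := by positivity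
  nlinarith

section pk

variable {hn : 2 ≤ 4} {S : PCl 4} {P : ℝ → ℝ → ℝ} {r : ℝ → ℝ}
  {P' : ℕ → List (Fin 4) × Fin 4 → ℝ → ℝ → ℝ} {Λ : Finset (Fin 4) → Fin 4 → ℝ → ℝ → ℝ}

theorem pr_inj {k : Fin 4} (hk : k ≠ 0) : Function.Injective (pr2 (0 : Fin 4) k) := by
  intro x y hxy
  fin_cases x <;> fin_cases y
  · rfl
  · exact absurd (hxy : (0 : Fin 4) = k) hk.symm
  · exact absurd (hxy : k = (0 : Fin 4)) hk
  · rfl

theorem pr_v1 (H : Pk hn S P r P' Λ) {k : Fin 4} {w : ℝ} (hw : Gwd P P' Λ w) :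
    vs Λ (pr2 (0 : Fin 4) k) w 1 = w := by
  obtain ⟨al, g₀, s, d, e, K₀, N, hal, hg₀, hC⟩ := H.cl
  rw [Pool.NJ69.vs_one (by norm_num), pr2_zero]
  exact H.lam.act hC.ne hal (hC.actm.q hg₀) (hC.actb _ rfl) H.pos hw.pos.le hw.lt

theorem pr_v2 (H : Pk hn S P r P' Λ) {k : Fin 4} {w : ℝ} (hw : Gwd P P' Λ w) :
    vs Λ (pr2 (0 : Fin 4) k) w 2 = Λ {0} k w w := by
  obtain ⟨al, g₀, s, d, e, K₀, N, hal, hg₀, hC⟩ := H.cl
  rw [Pool.NJ69.vs_two (by norm_num), pr2_zero, pr2_one,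
    H.lam.act hC.ne hal (hC.actm.q hg₀) (hC.actb _ rfl) H.pos hw.pos.le hw.lt]

theorem pr_exa (H : Pk hn S P r P' Λ) (hF2 : FZX 2) {k : Fin 4} (hk : k ≠ 0) {w : ℝ}
    (hw : Gwd P P' Λ w) : VExa S Λ (pr2 (0 : Fin 4) k) w := by
  obtain ⟨al, g₀, s, d, e, K₀, N, hal, hg₀, hC⟩ := H.cl
  have hwv := wv_pair (a₀ := (0 : Fin 4)) (k := k) H (by norm_num) rfl hw
  intro ρ hρ
  refine vst_exa hF2 hC.ne (C₀ := 6) (by norm_num) H.tmc H.lam hal hg₀ hC.actm H.pos (pr_inj hk)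
    (fun l hl => ?_) hwv.1 hwv.2.1 hwv.2.2.1 hwv.2.2.2 hρ
  have hl' : l = ⟨0, by norm_num⟩ := Fin.ext hl
  subst hl'
  rw [pr2_zero]
  exact hC.actb _ rfl

theorem pr_c {c : ℕ → Fin 4} (hc0 : c 0 = 0) (i : Fin 2) : c i = pr2 (0 : Fin 4) (c 1) i := by
  fin_cases i
  · exact hc0
  · rfl

/-- The threshold of the active coordinate. -/
theorem bet0 (H : Pk hn S P r P' Λ) (hF2 : FZX 2) {c : ℕ → Fin 4} (hc0 : c 0 = 0) (hc1 : c 1 ≠ 0)
    {w : ℝ} (hw : Gwd P P' Λ w) {j : ℕ} (hj : w < 1 - tht j * w) :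
    bet (P' j) c 0 w w = w := by
  have hwv := wv_pair (a₀ := (0 : Fin 4)) (k := c 1) H (by norm_num) rfl hw
  have h1 := bet_eq_vst (tht_pos j) H.ne (C₀ := 6) (by norm_num) H.tmc H.lam (H.cht j)
    (pr_inj hc1) (pr_c hc0) ⟨hwv, hw.con j⟩ (pr_exa H hF2 hc1 hw) (j := 0) (by norm_num)
    (by rw [zero_add, pr_v1 H hw]; exact hj)
  rwa [zero_add, pr_v1 H hw] at h1

/-- The threshold of the second coordinate. -/
theorem bet1 (H : Pk hn S P r P' Λ) (hF2 : FZX 2) {c : ℕ → Fin 4} (hc0 : c 0 = 0) (hc1 : c 1 ≠ 0)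
    {w : ℝ} (hw : Gwd P P' Λ w) {j : ℕ} (hj : Λ {0} (c 1) w w < 1 - tht j * w) :
    bet (P' j) c 1 w w = Λ {0} (c 1) w w := by
  have hwv := wv_pair (a₀ := (0 : Fin 4)) (k := c 1) H (by norm_num) rfl hw
  have h1 := bet_eq_vst (tht_pos j) H.ne (C₀ := 6) (by norm_num) H.tmc H.lam (H.cht j)
    (pr_inj hc1) (pr_c hc0) ⟨hwv, hw.con j⟩ (pr_exa H hF2 hc1 hw) (j := 1) (by norm_num)
    (by
      show vs Λ (pr2 0 (c 1)) w 2 < _
      rw [pr_v2 H hw]
      exact hj)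
  have h2 : vs Λ (pr2 0 (c 1)) w (1 + 1) = Λ {0} (c 1) w w := pr_v2 H hw
  rwa [h2] at h1

/-- The threshold of the third coordinate, from below. -/
theorem bet2_ge (H : Pk hn S P r P' Λ) (hF2 : FZX 2) {c : ℕ → Fin 4} (hc0 : c 0 = 0)
    (hc : Set.InjOn c (Set.Iio 3)) {w : ℝ} (hw : Gwd P P' Λ w) (j : ℕ) :
    Λ {0} (c 2) w w ≤ bet (P' j) c 2 w w := by
  have hc1 : c 1 ≠ 0 := by
    intro h
    rw [← hc0] at h
    exact absurd (hc (by norm_num [Set.mem_Iio]) (by norm_num [Set.mem_Iio]) h) (by norm_num)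
  have hc2 : c 2 ≠ 0 := by
    intro h
    rw [← hc0] at h
    exact absurd (hc (by norm_num [Set.mem_Iio]) (by norm_num [Set.mem_Iio]) h) (by norm_num)
  have h1 := vs_le_bet2 (tht_pos j) H.ne H.tmc H.pos H.lam (H.cht j) hc
    (ε₁ := pr2 0 (c 1)) (ε₂ := pr2 0 (c 2)) hc0.symm rfl hc0.symm rfl
    (wv_pair H (by norm_num) rfl hw) (wv_pair H (by norm_num) rfl hw) (pr_exa H hF2 hc1 hw)
    (by rw [pr_v1 H hw]; exact hw.lt) (by rw [pr_v1 H hw, pr_v1 H hw]) (hw.con j)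
  rwa [pr_v2 H hw] at h1

/-- **The threshold of the third coordinate**, from above, in an order which is nearly greedy. -/
theorem bet2_le (H : Pk hn S P r P' Λ) (hF : FZX 3) (hF2 : FZX 2) {σ : Equiv.Perm (Fin (4 - 1))}
    (hσ : σ ∈ Og 4) {w : ℝ} (hw : Gwd P P' Λ w) {sl : ℝ} (hsl0 : 0 ≤ sl)
    (hsl : Λ {0} (cc hn σ 1) w w < Λ {0} (cc hn σ 2) w w + sl) {j : ℕ}
    (hlt : vol Λ w - w - Λ {0} (cc hn σ 1) w w + sl < 1 - tht j * w) :
    bet (P' j) (cc hn σ) 2 w w ≤ vol Λ w - w - Λ {0} (cc hn σ 1) w w + sl := by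
  classical
  obtain ⟨c, hcd⟩ : ∃ c, c = cc hn σ := ⟨_, rfl⟩
  rw [← hcd] at hsl hlt ⊢
  have hc0 : c 0 = 0 := by rw [hcd]; exact cc0 hn hσ
  have hc1 : c 1 ≠ 0 := by rw [hcd]; exact cc_ne0 hn hσ (by norm_num) (by norm_num)
  have hc2 : c 2 ≠ 0 := by rw [hcd]; exact cc_ne0 hn hσ (by norm_num) (by norm_num)
  have hcj : Set.InjOn c (Set.Iio 3) := by
    rw [hcd]
    exact (cc_inj hn σ).mono fun x hx => by
      rw [Set.mem_Iio] at hx ⊢
      omega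
  obtain ⟨n1, hn1⟩ : ∃ n1, n1 = Λ {0} (c 1) w w := ⟨_, rfl⟩
  obtain ⟨n2, hn2⟩ : ∃ n2, n2 = Λ {0} (c 2) w w := ⟨_, rfl⟩
  obtain ⟨t, ht⟩ : ∃ t, t = vol Λ w - w - n1 := ⟨_, rfl⟩
  rw [← hn1, ← hn2] at hsl
  rw [← hn1, ← ht] at hlt ⊢
  have hw0 := hw.pos
  have hw1 := hw.lt
  have hwn1 : w ≤ n1 := by rw [hn1]; exact H.lam.low _ _ _ _ hw1.le
  have hwn2 : w ≤ n2 := by rw [hn2]; exact H.lam.low _ _ _ _ hw1.le
  have hn11 : n1 ≤ 1 := by rw [hn1]; exact H.lam.le1 _ _ _ _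
  have hn21 : n2 ≤ 1 := by rw [hn2]; exact H.lam.le1 _ _ _ _
  have hn2t : n2 ≤ t := by
    rw [ht, hn1, hn2, hcd]
    exact vol_ge H hw hσ
  have hθ := mul_pos (tht_pos j) hw0
  -- the pairs
  have hwv1 := wv_pair (a₀ := (0 : Fin 4)) (k := c 1) H (by norm_num) rfl hw
  have hwv2 := wv_pair (a₀ := (0 : Fin 4)) (k := c 2) H (by norm_num) rfl hw
  have hex1 := pr_exa H hF2 hc1 hw
  have v1 : vs Λ (pr2 0 (c 1)) w 1 = w := pr_v1 H hw
  have v2 : vs Λ (pr2 0 (c 1)) w 2 = n1 := by rw [hn1]; exact pr_v2 H hw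
  have v1' : vs Λ (pr2 0 (c 2)) w 1 = w := pr_v1 H hw
  have v2' : vs Λ (pr2 0 (c 2)) w 2 = n2 := by rw [hn2]; exact pr_v2 H hw
  -- the radius
  obtain ⟨κ, hκ⟩ : ∃ κ, κ = min (n2 + sl - n1) ((1 - n1) / 2) := ⟨_, rfl⟩
  have hn1' : n1 < 1 := by linarith
  have hκ0 : 0 < κ := by rw [hκ]; exact lt_min (by linarith) (by linarith)
  have hκ1 : κ ≤ n2 + sl - n1 := by rw [hκ]; exact min_le_left _ _
  have hκ2 : κ ≤ (1 - n1) / 2 := by rw [hκ]; exact min_le_right _ _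
  have hposA : ∀ (τ : ℝ) (J : ℕ) (F : Fam 4 J) (A : F.Ω → Prop), 0 < τ → S.St τ J F A →
      0 < Pe F.p A := by
    obtain ⟨al, g₀, s, d, e, K₀, N, hal, hg₀, hC⟩ := H.cl
    exact fun τ J F A _ hA => hC.pos τ J F A hA
  -- labels
  have l2 : ∀ e : ℝ, 0 < e → ∃ K, Bas S (fun J F A => Lb F {0} (c 2) K ⌊e * J⌋₊ J ⌊w * J⌋₊
      ⌊min (w + e) 1 * J⌋₊ ⌊(n2 - e) * J⌋₊ A) := by
    intro e he
    obtain ⟨K, hK⟩ := vst_att1 H.lam hw0 hw1 hwv2.2.2.1 hwv2.2.2.2 1 1 rfl 1 le_rfl e he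
    refine ⟨K, hK.mono 0 fun J _ F A h1 => ?_⟩
    rw [img_one2] at h1
    have e1 : vs Λ (pr2 0 (c 2)) w ((1 : Fin 2) : ℕ) = w := v1'
    have e2 : vs Λ (pr2 0 (c 2)) w (((1 : Fin 2) : ℕ) + 1) = n2 := v2'
    rw [e1, e2] at h1
    exact h1
  have l1 : ∀ e : ℝ, 0 < e → ∃ K, Bas S (fun J F A => Lb F {0} (c 1) K ⌊e * J⌋₊ J ⌊w * J⌋₊
      ⌊min (w + e) 1 * J⌋₊ ⌊(n1 - e) * J⌋₊ A) := by
    intro e he
    obtain ⟨K, hK⟩ := vst_att1 H.lam hw0 hw1 hwv1.2.2.1 hwv1.2.2.2 1 1 rfl 1 le_rfl e he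
    refine ⟨K, hK.mono 0 fun J _ F A h1 => ?_⟩
    rw [img_one2] at h1
    have e1 : vs Λ (pr2 0 (c 1)) w ((1 : Fin 2) : ℕ) = w := v1
    have e2 : vs Λ (pr2 0 (c 1)) w (((1 : Fin 2) : ℕ) + 1) = n1 := v2
    rw [e1, e2] at h1
    exact h1
  have l0 : ∀ e : ℝ, 0 < e → ∃ K, Bas S (fun J F A => Lb F ∅ 0 K ⌊e * J⌋₊ J ⌊w * J⌋₊
      ⌊min (w + e) 1 * J⌋₊ ⌊(w - e) * J⌋₊ A) := by
    intro e he
    obtain ⟨K, hK⟩ := vst_att1 H.lam hw0 hw1 hwv1.2.2.1 hwv1.2.2.2 0 0 rfl 0 le_rfl e he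
    refine ⟨K, hK.mono 0 fun J _ F A h1 => ?_⟩
    rw [img_zero2] at h1
    have e1 : vs Λ (pr2 0 (c 1)) w ((0 : Fin 2) : ℕ) = w := rfl
    have e2 : vs Λ (pr2 0 (c 1)) w (((0 : Fin 2) : ℕ) + 1) = w := v1
    rw [e1, e2] at h1
    exact h1
  have hwJ : ∀ J : ℕ, ⌊w * (J : ℝ)⌋₊ ≤ J := fun J => fl_le hw1.le J
  have hrange : (range 2).image c = {0, c 1} := by
    have : range 2 = {0, 1} := by decide
    rw [this, Finset.image_insert, Finset.image_singleton, hc0]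
  -- fullness of the last coordinate
  have hexc : ∀ ρ : ℝ, 0 < ρ → ExvY S w (fun J F ω (i : Fin 3) => F.X J ω (c i))
      ((3 - vol Λ w) - ρ) := by
    intro ρ hρ
    have h1 := exv_gw H hF hw hρ
    refine exv_perm (c := fun i : Fin 3 => cc hn (ow Λ w) i) (fun i => ?_) (by
      have e1 : (((4 - 1 : ℕ) : ℝ) - vol Λ w) - ρ = (3 - vol Λ w) - ρ := by norm_num
      rw [e1] at h1
      exact h1)
    have h2 := cc_lt hn (ow Λ w) (j := i) i.2
    obtain ⟨i', hi'⟩ := bse_cov (n := 4) σ (ow Λ w) ⟨i, i.2⟩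
    refine ⟨i', ?_⟩
    show c i' = cc hn (ow Λ w) i
    rw [h2, hcd, cc_lt hn σ (j := i') i'.2]
    exact hi'
  have hful := fun (ρ : ℝ) (hρ : 0 < ρ) => crd3 H.pos (c := c) (w := w) (n0 := w) (n1 := n1)
    (V := vol Λ w) hw1.le hn11 (r0 := fun e => min (w + e) 1) (r1 := fun e => min (w + e) 1)
    (fun _ => min_le_right _ _) (fun _ => min_le_right _ _)
    (fun e he => by rw [hc0]; exact l0 e he) (fun e he => by rw [hc0]; exact l1 e he)
    (fun e he => by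
      obtain ⟨K, hK⟩ := l2 e he
      refine ⟨K, min (w + e) 1, n2 - e, min_le_right _ _, by linarith, hK.mono 0
        fun J _ F A h1 => ?_⟩
      refine h1.mono ?_ le_rfl le_rfl le_rfl le_rfl (hwJ J) le_rfl le_rfl
      intro x hx
      rw [Finset.mem_singleton] at hx
      rw [hx, hc0]
      exact Finset.mem_insert_self _ _) hw1.le hexc hρ
  -- the base
  have hbase : ∀ ρ : ℝ, 0 < ρ → Bas S (fun J F A => ∀ (V : Type) (z : PtT F → V) (z' : LnT F → V),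
      (∀ ω, A ω → z (ptr F J ω) = z' (slam F ⌊w * J⌋₊ ω)) →
      ((range 2).image c).card * (((J - ⌊(n1 + κ) * J⌋₊ : ℕ) : ℝ) * Real.log 2) - ρ * J ≤
        CH (Pool.Agent.H49.Ent.cond F.p A True)
          (fun ω => ceI ((range 2).image c) (fun _ => J) (F.x ω))
          (fun ω => (ceI ((range 2).image c) (fun _ => ⌊(n1 + κ) * J⌋₊) (F.x ω),
            z' (slam F ⌊w * J⌋₊ ω), F.W ω))) := by
    have himg : univ.image (pr2 (0 : Fin 4) (c 1)) = (range 2).image c := by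
      rw [hrange]
      ext x
      simp only [Finset.mem_image, Finset.mem_univ, true_and, Finset.mem_insert,
        Finset.mem_singleton]
      constructor
      · rintro ⟨i, rfl⟩
        fin_cases i
        · exact Or.inl rfl
        · exact Or.inr rfl
      · rintro (rfl | rfl)
        · exact ⟨0, rfl⟩
        · exact ⟨1, rfl⟩
    rw [← himg]
    refine Pool.EXW.full_cls hposA (s := fun j : Fin 2 => vs Λ (pr2 0 (c 1)) w (j + 1))
      (r := fun j : Fin 2 => vs Λ (pr2 0 (c 1)) w j) (by linarith) (fun j => ?_) (fun j => ?_)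
      hex1 (fun e he => ?_)
    · fin_cases j
      · show vs Λ (pr2 0 (c 1)) w 1 ≤ _
        rw [v1]
        linarith
      · show vs Λ (pr2 0 (c 1)) w 2 ≤ _
        rw [v2]
        linarith
    · fin_cases j
      · show w ≤ _
        linarith
      · show vs Λ (pr2 0 (c 1)) w 1 ≤ _
        rw [v1]
        linarith
    · obtain ⟨K, hK⟩ := vst_att H.lam hw0 hw1 hwv1.2.2.1 hwv1.2.2.2 he
      exact ⟨K, fun j => hK j j le_rfl⟩
  -- the chains
  obtain ⟨tt, htt⟩ : ∃ tt : ℕ → ℝ, tt = fun l => if l = 0 then w else if l = 1 then n1 else t + sl :=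
    ⟨_, rfl⟩
  have t0 : tt 0 = w := by rw [htt]; rfl
  have t1 : tt 1 = n1 := by rw [htt]; rfl
  have t2 : tt 2 = t + sl := by rw [htt]; rfl
  have hslge : n1 ≤ t + sl := by linarith
  have key := bet_le_gen (tht_pos j) H.ne (H.cht j) (c := c) hw0 hw1 (j := 2) (t := tt)
    (T := t + sl) (fun l hl => by
      rcases (show l = 0 ∨ l = 1 ∨ l = 2 by omega) with rfl | rfl | rfl
      · rw [t0]
      · rw [t1]
        exact hwn1
      · rw [t2]
        linarith)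
    (fun l hl => by
      rcases (show l = 0 ∨ l = 1 ∨ l = 2 by omega) with rfl | rfl | rfl
      · rw [t0]
        linarith
      · rw [t1]
        exact hslge
      · rw [t2]) hlt (fun i hi K h hh hh1 => by
      rcases (show i = 0 ∨ i = 1 ∨ i = 2 by omega) with rfl | rfl | rfl
      · rw [t0] at hh1 ⊢
        have h1 := chn_abs (C₀ := 6) (by norm_num) H.tmc H.lam (pr_inj hc1) (pr_c hc0) hwv1 hex1
          (i := 0) (by norm_num) K hh (by rw [zero_add, v1]; exact hh1)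
        rw [zero_add, v1] at h1
        exact h1
      · rw [t1] at hh1 ⊢
        have e2 : vs Λ (pr2 0 (c 1)) w (1 + 1) = n1 := v2
        have h1 := chn_abs (C₀ := 6) (by norm_num) H.tmc H.lam (pr_inj hc1) (pr_c hc0) hwv1 hex1
          (i := 1) (by norm_num) K hh (by rw [e2]; exact hh1)
        rw [e2] at h1
        exact h1
      · rw [t2] at hh1 ⊢
        exact chn_abs_e (C₀ := 6) (by norm_num) H.tmc (n := 2) (c := c) hcj (u := n1 + κ)
          (sl := sl) (t := t) hw0 hw1 (by linarith) (by linarith) hsl0 (by linarith) hbase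
          (fun η hη => by
            obtain ⟨e, he⟩ : ∃ e, e = min η κ := ⟨_, rfl⟩
            have he0 : 0 < e := by rw [he]; exact lt_min hη hκ0
            have he1 : e ≤ η := by rw [he]; exact min_le_left _ _
            have he2 : e ≤ κ := by rw [he]; exact min_le_right _ _
            obtain ⟨K', hK'⟩ := l2 e he0
            refine ⟨K', hK'.mono 0 fun J _ F A h1 => ?_⟩
            have hJ0 : (0 : ℝ) ≤ J := Nat.cast_nonneg J
            refine h1.mono ?_ le_rfl (Nat.floor_le_floor (mul_le_mul_of_nonneg_right he1 hJ0))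
              le_rfl le_rfl (hwJ J)
              (Nat.floor_le_floor (mul_le_mul_of_nonneg_right ?_ hJ0))
              (Nat.floor_le_floor (mul_le_mul_of_nonneg_right ?_ hJ0))
            · rw [hrange]
              intro x hx
              rw [Finset.mem_singleton] at hx
              rw [hx]
              exact Finset.mem_insert_self _ _
            · exact (min_le_left _ _).trans (by linarith)
            · linarith)
          (fun ρ hρ => by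
            have h1 := hful ρ hρ
            rw [← ht] at h1
            exact h1) K hh hh1)
  rw [t2] at key
  exact key

end pk

end Pool.HV57
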